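import Pool.Agent.Y258.SD.Defs

set_option autoImplicit false

/-!
# Statements of the number theoretic jobs
-/

namespace Pool.Agent.Y258

open Finset Pool.Agent.H935R2.PS

open Classical in
/-- the non-parallel pairs `(h, c h)` in dyadic boxes -/
noncomputable def NP {q : ℕ} [NeZero q] {ι : Type} [Fintype ι] [DecidableEq ι] (b b' : ι → ℕ) :
    Finset ((ι → ZMod q) × ZMod q) :=
  univ.filter (fun p => p.2 ≠ 0 ∧ (∀ a, p.1 a ≠ 0 ∧ dl (p.1 a) = b a ∧ dl (p.2 * p.1 a) = b' a) ∧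
    ¬ Prl p.1 (fun a => p.2 * p.1 a))

/-- (A1) Lemma C. -/
def St_A1 : Prop := ∀ κ : ℕ, 2 ≤ κ → ∃ C : ℕ, ∀ (q : ℕ) [Fact q.Prime], Suit q → C ≤ q →
  ∀ (ι : Type) [Fintype ι] [DecidableEq ι], Fintype.card ι = κ → ∀ b b' : ι → ℕ,
  ((NP (q := q) b b').card : ℝ) ≤ C * (La q : ℝ) ^ C *
    ((2:ℝ) ^ (∑ a, (b a + b' a)) / (q:ℝ) ^ (κ - 1) +
      √((2:ℝ) ^ (∑ a, (b a + b' a))) * ∑ a, √((2:ℝ) ^ (b a + b' a)) / q)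

open Classical in
/-- (A2) The sum over the vectors with a non-parallel short multiple. -/
def St_A2 : Prop := ∀ κ : ℕ, 2 ≤ κ → ∃ C : ℕ, ∀ (q : ℕ) [Fact q.Prime], Suit q → C ≤ q →
  ∀ (ι : Type) [Fintype ι] [DecidableEq ι], Fintype.card ι = κ → ∀ D K0 : ℕ, 1 ≤ D → D < κ →
  C * uu q ≤ K0 →
  ∑ h ∈ (univ : Finset (ι → ZMod q)).filter (fun h => (∀ a, h a ≠ 0) ∧ ¬ BdP D K0 h ∧
    ∃ c : ZMod q, c ≠ 0 ∧ Bd D K0 (fun a => c * h a)), wt h ≤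
    C * (La q : ℝ) ^ (κ - 2) * (uu q : ℝ) ^ 2

open Classical in
/-- (A3) The neighbour sum. -/
def St_A3 : Prop := ∀ κ : ℕ, 2 ≤ κ → ∃ C : ℕ, ∀ (q : ℕ) [Fact q.Prime], Suit q → C ≤ q →
  ∀ (ι : Type) [Fintype ι] [DecidableEq ι], Fintype.card ι = κ → ∀ D K0 : ℕ, 1 ≤ D → D < κ →
  C * uu q ≤ K0 →
  ∑ h ∈ (univ : Finset (ι → ZMod q)).filter (fun h => (∀ a, h a ≠ 0) ∧
    ∀ c : ZMod q, c ≠ 0 → ¬ Bd D K0 (fun a => c * h a)),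
      wt h * min 1 (∑ c ∈ (univ : Finset (ZMod q)).filter (fun c => c ≠ 0),
        (2:ℝ) ^ (D * La q) / 2 ^ (K0 + sz (fun a => c * h a))) ≤
    C * (La q : ℝ) ^ (κ - 1)

open Classical in
/-- (A4) One-dimensional block sums of the Fourier coefficients of an interval. The block `b`:
the positive integers `x` with `2 ^ b ≤ j x < 2 ^ (b + 1)` and `g j x < q / 2`. -/
def St_A4 : Prop := ∃ C : ℝ, 0 < C ∧ ∀ (q : ℕ) [Fact q.Prime], 3 ≤ q → ∀ (t : ℕ) (φ : ℝ), t < q →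
  0 ≤ φ → φ ≤ 1 → ∀ g j : ℕ, 1 ≤ g → 1 ≤ j → 
  ∑ b ∈ range (La q + 1), ‖∑ x ∈ (Icc 1 q).filter (fun x => Nat.log 2 (j * x) = b ∧
      2 * (g * j * x) < q), (Fc t φ ((g * j * x : ℕ) : ZMod q) + Fc t φ (-((g * j * x : ℕ) : ZMod q)))‖ ≤
    C / (g * j)

open Classical in
/-- (A5) The signed sum over the vectors which are parallel over `ℚ` to a bad vector. -/
def St_A5 : Prop := ∀ κ : ℕ, 2 ≤ κ → ∃ C : ℝ, 0 < C ∧ ∀ (q : ℕ) [Fact q.Prime], 3 ≤ q →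
  ∀ (ι : Type) [Fintype ι] [DecidableEq ι], Fintype.card ι = κ → ∀ (D K0 : ℕ) (t : ι → ℕ)
  (φ : ι → ℝ), (∀ a, t a < q) → (∀ a, 0 ≤ φ a) → (∀ a, φ a ≤ 1) →
  ‖∑ h ∈ (univ : Finset (ι → ZMod q)).filter (fun h => (∀ a, h a ≠ 0) ∧ BdP D K0 h),
    ∏ a, Fc (t a) (φ a) (h a)‖ ≤ C

/-- (A6a) -/
def St_A6a : Prop := ∀ κ : ℕ, ∃ C : ℝ, 0 < C ∧ ∀ (q : ℕ) [Fact q.Prime], 3 ≤ q →
  ∀ (ι : Type) [Fintype ι] [DecidableEq ι], Fintype.card ι = κ →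
  ∑ h : ι → ZMod q, wm h ≤ C * (La q : ℝ) ^ κ

open Classical in
/-- (A6b) -/
def St_A6b : Prop := ∀ κ : ℕ, 1 ≤ κ → ∃ C : ℝ, 0 < C ∧ ∀ (q : ℕ) [Fact q.Prime], 3 ≤ q →
  ∀ (ι : Type) [Fintype ι] [DecidableEq ι], Fintype.card ι = κ → ∀ D K0 : ℕ,
  (((univ : Finset (ι → ZMod q)).filter (fun h => Bd D K0 h)).card : ℝ) ≤
    C * (La q : ℝ) ^ (κ - 1) * 2 ^ (D * La q) / 2 ^ K0

open Classical in
/-- (A6c) -/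
def St_A6c : Prop := ∀ κ : ℕ, ∃ C : ℝ, 0 < C ∧ ∀ (q : ℕ) [Fact q.Prime], 3 ≤ q →
  ∀ (ι : Type) [Fintype ι] [DecidableEq ι], Fintype.card ι = κ → ∀ D K0 : ℕ, D ≤ κ →
  ∀ Λ : Submodule (ZMod q) (ι → ZMod q), (∀ h ∈ Λ, h ≠ 0 → ¬ Bd D K0 h) →
  ∑ h ∈ (univ : Finset (ι → ZMod q)).filter (fun h => h ∈ Λ ∧ h ≠ 0), (q:ℝ) ^ D * wm h ≤
    C * (La q : ℝ) ^ κ * 2 ^ K0

open Classical in
/-- (A7) The direct bias. -/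
def St_A7 : Prop := ∀ n : ℕ, ∃ C : ℕ, ∀ (q : ℕ) [Fact q.Prime], Suit q → C ≤ q →
  ∀ (D K0 : ℕ) (t : Option (Fin (n + 2)) → ℕ) (φ : Option (Fin (n + 2)) → ℝ), 1 ≤ D → D ≤ n + 2 →
  C * uu q ≤ K0 → K0 ≤ La q → (∀ o, t o < q) → (∀ o, 0 ≤ φ o) → (∀ o, φ o ≤ 1) →
  ‖∑ H ∈ (univ : Finset (Option (Fin (n + 2)) → ZMod q)).filter (fun H => H none ≠ 0 ∧
      ∃ c : ZMod q, c ≠ 0 ∧ Bd D K0 (fun o => c * H o)), ∏ o, Fc (t o) (φ o) (H o)‖ ≤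
    C * (La q : ℝ) ^ (n + 1) * (uu q : ℝ) ^ 2

open Classical in
/-- (A8) The neighbour sum with one vanishing coordinate. -/
def St_A8 : Prop := ∀ n : ℕ, ∃ C : ℕ, ∀ (q : ℕ) [Fact q.Prime], Suit q → C ≤ q →
  ∀ (D K0 : ℕ) (a0 : Fin (n + 2)), 1 ≤ D → D ≤ n + 2 → C * uu q ≤ K0 → K0 ≤ La q →
  ∑ H ∈ (univ : Finset (Option (Fin (n + 2)) → ZMod q)).filter (fun H => H none ≠ 0 ∧
      H (some a0) = 0 ∧ ∀ c : ZMod q, c ≠ 0 → ¬ Bd D K0 (fun o => c * H o)),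
      wm H * min 1 (∑ c ∈ (univ : Finset (ZMod q)).filter (fun c => c ≠ 0),
        (2:ℝ) ^ (D * La q) / 2 ^ (K0 + sz (fun o => c * H o))) ≤
    C * (La q : ℝ) ^ (n + 1)

end Pool.Agent.Y258
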