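import Pool.Agent.H470D4.Decomp
import Pool.Agent.H470D4.Count
import Pool.Agent.H470D4.NetE
import Pool.Agent.Y258.SD.Stmts

set_option autoImplicit false

/-!
# Power saving in the star discrepancy in every dimension: definitions for the random path
-/

namespace Pool.Agent.Y258

open Finset Pool.Agent.H470D4
open Pool.Agent.H935R2.PS (La uu nn dl mx Suit)

/-- paths of random blocks -/
abbrev Pth (q B : ℕ) := ℕ → Blk q B

section defs
variable {q M B n : ℕ}

/-- the (expected) dimension of the level -/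
def dm (M B : ℕ) {n : ℕ} (l : Fin (n+2) → ℕ) (r : ℕ) : ℕ := M * B - (∑ a, l a + r)

/-- the join of two levels -/
def mxv {n : ℕ} (l l' : Fin (n+2) → ℕ) : Fin (n+2) → ℕ := fun a => max (l a) (l' a)

/-- `H` is a linear relation between the `c a (l a)` and the row `r`, on the level `(l, r)`. -/
def Rel (c : Flg q M B n) (ω : Pth q B) (l : Fin (n+2) → ℕ) (r : ℕ)
    (H : Option (Fin (n+2)) → ZMod q) : Prop :=
  ∀ v ∈ AA c ω l r, ∑ a, H (some a) * c a (l a) v + H none * row M ω r v = 0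

/-- `O` is a linear relation between the `c a (W a)`, on the level `(W, r)`. -/
def OR (c : Flg q M B n) (ω : Pth q B) (W : Fin (n+2) → ℕ) (r : ℕ)
    (O : Fin (n+2) → ZMod q) : Prop :=
  ∀ v ∈ AA c ω W r, ∑ a, O a * c a (W a) v = 0

/-- the past of the row `r` is exact -/
def Exc (c : Flg q M B n) (ω : Pth q B) (r : ℕ) : Prop :=
  ∀ W : Fin (n+2) → ℕ, Module.finrank (ZMod q) (AA c ω W r) = dm M B W r

/-- there is no short relation involving the row `r` on the level `(l, r)` -/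
def Gd (c : Flg q M B n) (K0 : ℕ) (ω : Pth q B) (l : Fin (n+2) → ℕ) (r : ℕ) : Prop :=
  ∀ H : Option (Fin (n+2)) → ZMod q, H none ≠ 0 → Rel c ω l r H → ¬ Bd (dm M B l r) K0 H

/-- the interior levels of the row `r` and the block `β`, of dimension between `1` and `n + 2` -/
def IL (M B n K7 r β : ℕ) : Finset (Fin (n+2) → ℕ) :=
  (Lbox M B n).filter (fun l => β * B ≤ l 0 ∧ l 0 + K7 ≤ (β + 1) * B ∧
    ∑ a, l a + r < M * B ∧ M * B ≤ ∑ a, l a + r + (n + 2))

/-- no short relation among the `c a (l a)` on the interior levels of the row `r` -/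
def OldG (c : Flg q M B n) (K0 K7 : ℕ) (ω : Pth q B) (r : ℕ) : Prop :=
  ∀ β < M, ∀ l ∈ IL M B n K7 r β, ∀ O : Fin (n+2) → ZMod q, O ≠ 0 → OR c ω l r O →
    ¬ Bd (dm M B l r) K0 O

/-- the pairs of distant interior levels are in general position -/
def PairG (c : Flg q M B n) (K7 : ℕ) (ω : Pth q B) (r : ℕ) : Prop :=
  ∀ β < M, ∀ l ∈ IL M B n K7 r β, ∀ l' ∈ IL M B n K7 r β, dm M B (mxv l l') r = 0 →
    (AA c ω l r ⊔ AA c ω l' r) ⊓ Vb q M B (β+1) = ⊥

/-- no relation involving the row at the levels of dimension at least `n + 3` -/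
def NoRel (c : Flg q M B n) (ω : Pth q B) : Prop :=
  ∀ l : Fin (n+2) → ℕ, ∀ r < M * B, ∑ a, l a + r + (n + 3) ≤ M * B →
    ∀ H : Option (Fin (n+2)) → ZMod q, H none ≠ 0 → ¬ Rel c ω l r H

open Classical in
/-- the allowed blocks at time `j` (the block `M - 1 - j % M` of the row `j / M`) -/
noncomputable def AlS [NeZero q] (c : Flg q M B n) (K0 K7 : ℕ) (j : ℕ) (ω : Pth q B) :
    Finset (Blk q B) :=
  univ.filter (fun z => Exc c ω (j / M) → ∀ l ∈ IL M B n K7 (j / M) (M - 1 - j % M),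
    Gd c K0 (Function.update ω j z) l (j / M))

open Classical in
/-- the absolute Fourier bound of a level -/
noncomputable def RR [NeZero q] (c : Flg q M B n) (ω : Pth q B) (l : Fin (n+2) → ℕ) (r : ℕ) : ℝ :=
  ∑ H ∈ (univ : Finset (Option (Fin (n+2)) → ZMod q)).filter (fun H => H none ≠ 0 ∧ Rel c ω l r H),
    (q:ℝ) ^ dm M B l r * wm H

/-- the relation on the join obtained by eliminating the row from two relations -/
def OO {n : ℕ} (l l' : Fin (n+2) → ℕ) (H H' : Option (Fin (n+2)) → ZMod q) :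
    Fin (n+2) → ZMod q := fun a =>
  H' none * (if l' a ≤ l a then H (some a) else 0) - H none * (if l a ≤ l' a then H' (some a) else 0)

open Classical in
/-- the contribution of the accidental relations to the correlation of two levels -/
noncomputable def PP [NeZero q] (c : Flg q M B n) (K0 : ℕ) (ω : Pth q B) (r : ℕ)
    (l l' : Fin (n+2) → ℕ) : ℝ :=
  ∑ H ∈ (univ : Finset (Option (Fin (n+2)) → ZMod q)).filter (fun H => H none ≠ 0),
    ∑ H' ∈ (univ : Finset (Option (Fin (n+2)) → ZMod q)).filter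
      (fun H' => H' none ≠ 0 ∧ Bd (dm M B l' r) K0 H'),
      ii (OO l l' H H' ≠ 0 ∧ OR c ω (mxv l l') r (OO l l' H H')) *
        (wm H * (q:ℝ) ^ dm M B (mxv l l') r / (q:ℝ) ^ dm M B l' r)

/-- the data of the corner `X, Y` -/
noncomputable def cD [NeZero q] (M B : ℕ) {n : ℕ} (X : Fin (n+2) → ℕ → ZMod q) (Y : ℕ → ZMod q) :
    Dat q n := mkDat (M * B) X Y (fun _ _ => 0) (fun _ => 0)

/-- the vector with the digits `X 0` -/
def xX (M B : ℕ) {n : ℕ} (X : Fin (n+2) → ℕ → ZMod q) : Vec q M B := fun i => X 0 i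

/-- lengths of the digit intervals -/
def tO {n : ℕ} (X : Fin (n+2) → ℕ → ZMod q) (Y : ℕ → ZMod q) (l : Fin (n+2) → ℕ) (r : ℕ) :
    Option (Fin (n+2)) → ℕ := fun o => o.elim (Y r).val (fun a => (X a (l a)).val)

/-- fractional parts -/
noncomputable def fO (M B : ℕ) {n : ℕ} (Y : ℕ → ZMod q) (r : ℕ) : Option (Fin (n+2)) → ℝ :=
  fun o => o.elim (tv (fun j => Y (j + (r+1))) (M * B - (r+1))) (fun _ => 0)

/-- position of the point `ν` of the level `(l, r)` relative to the corner; `t` is a guess for the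
value of the row `r` at the corner vector -/
def uO (c : Flg q M B n) (X : Fin (n+2) → ℕ → ZMod q) (Y t : ℕ → ZMod q) (ω : Pth q B)
    (l : Fin (n+2) → ℕ) (r : ℕ) (ν : Vec q M B) : Option (Fin (n+2)) → ZMod q :=
  fun o => o.elim (t r - row M ω r (xX M B X - ν) - Y r) (fun a => c a (l a) ν - X a (l a))

/-- `ν` agrees with the corner on the level `(l, r)` -/
def Agr0 (c : Flg q M B n) (X : Fin (n+2) → ℕ → ZMod q) (Y : ℕ → ZMod q) (ω : Pth q B)
    (l : Fin (n+2) → ℕ) (r : ℕ) (ν : Vec q M B) : Prop :=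
  (∀ a, ∀ j < l a, c a j ν = X a j) ∧ ∀ j < r, row M ω j ν = Y j

/-- the level is aligned with the corner, but not of corner type -/
def NCv (c : Flg q M B n) (X : Fin (n+2) → ℕ → ZMod q) (Y t : ℕ → ZMod q) (ω : Pth q B)
    (r β : ℕ) (l : Fin (n+2) → ℕ) : Prop :=
  ∃ ν : Vec q M B, Agr0 c X Y ω l r ν ∧ xX M B X - ν ∈ Vb q M B (β+1) ∧ uO c X Y t ω l r ν ≠ 0

/-- uniform bound of the discrepancy of the projection on the first `n + 2` coordinates -/
def GB [NeZero q] (c : Flg q M B n) (E : ℝ) : Prop := ∀ X : Fin (n+2) → ℕ → ZMod q,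
  |∑ ν : Vec q M B, ii (∀ a, tv (fun j => c a j ν) (M * B) < tv (X a) (M * B)) -
    (q:ℝ) ^ (M * B) * ∏ a, tv (X a) (M * B)| ≤ E

/-- the flags with the rows as a new coordinate -/
def newF (c : Flg q M B n) (ω : Pth q B) : Flg q M B (n+1) := fun a j =>
  Fin.lastCases (motive := fun _ => Vec q M B →ₗ[ZMod q] ZMod q) (row M ω j) (fun b => c b j) a

end defs

end Pool.Agent.Y258
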