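import Pool.Agent.Y258.SD.CDefs

set_option autoImplicit false

/-!
# Statements of the jobs on the random path
-/

namespace Pool.Agent.Y258

open Finset Pool.Agent.H470D4
open Pool.Agent.H935R2.PS (La uu nn dl mx Suit)

/-- (C1) exactness -/
def St_C1 : Prop := ∀ (n q : ℕ) [Fact q.Prime], 8 ≤ q → ∀ (M B : ℕ) (c : Flg q M B n), IsFlags c →
  ∃ f : Pth q B → ℝ, (∀ ω, 0 ≤ f ω) ∧
    (∀ Al : ℕ → Pth q B → Finset (Blk q B), (∀ j ω, q ^ B ≤ 2 * (Al j ω).card) → ∀ ω₀,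
      EE Al 0 (M * B * M) f ω₀ ≤ 4 * ((M * B + 1 : ℕ) : ℝ) ^ (n + 3) / q) ∧
    ∀ ω, f ω < 1 → ∀ r ≤ M * B, Exc c ω r

/-- (C2) no relation in large dimension -/
def St_C2 : Prop := ∀ (n q : ℕ) [Fact q.Prime], 8 ≤ q → ∀ (M B : ℕ) (c : Flg q M B n), IsFlags c →
  ∃ f : Pth q B → ℝ, (∀ ω, 0 ≤ f ω) ∧
    (∀ Al : ℕ → Pth q B → Finset (Blk q B), (∀ j ω, q ^ B ≤ 2 * (Al j ω).card) → ∀ ω₀,
      EE Al 0 (M * B * M) f ω₀ ≤ 2 ^ (n + 3) * ((M * B + 1 : ℕ) : ℝ) ^ (n + 3) / q) ∧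
    ∀ ω, f ω < 1 → NoRel c ω

/-- (C3) distant levels are in general position -/
def St_C3 : Prop := ∀ (n q : ℕ) [Fact q.Prime], 8 ≤ q → ∀ (M B : ℕ) (c : Flg q M B n), IsFlags c →
  ∀ K7 : ℕ, 2 * n + 6 ≤ K7 →
  ∃ f : Pth q B → ℝ, (∀ ω, 0 ≤ f ω) ∧
    (∀ Al : ℕ → Pth q B → Finset (Blk q B), (∀ j ω, q ^ B ≤ 2 * (Al j ω).card) → ∀ ω₀,
      EE Al 0 (M * B * M) f ω₀ ≤ 4 ^ (n + 4) * ((M * B + 1 : ℕ) : ℝ) ^ (2 * n + 6) / q) ∧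
    ∀ ω, f ω < 1 → (∀ r ≤ M * B, Exc c ω r) → ∀ r < M * B, n + 3 ≤ r → PairG c K7 ω r

/-- (C4) allowed paths have no short old relations -/
def St_C4 : Prop := ∀ (n q : ℕ) [Fact q.Prime] (M B : ℕ) (c : Flg q M B n), IsFlags c →
  ∀ (K0 K7 : ℕ) (ω : Pth q B), (∀ r ≤ M * B, Exc c ω r) → NoRel c ω →
  (∀ j < M * B * M, ω j ∈ AlS c K0 K7 j ω) → ∀ r < M * B, n + 2 ≤ r → OldG c K0 K7 ω r

/-- (C5) probability of an old relation -/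
def St_C5 : Prop := ∀ (n q : ℕ) [Fact q.Prime], 8 ≤ q → ∀ (M B : ℕ) (c : Flg q M B n), IsFlags c →
  ∀ Al : ℕ → Pth q B → Finset (Blk q B), (∀ j ω, q ^ B ≤ 2 * (Al j ω).card) →
  ∀ (W : Fin (n+2) → ℕ) (r : ℕ) (O : Fin (n+2) → ZMod q), O ≠ 0 → ∑ a, W a + (n + 2) ≤ M * B →
  ∑ a, W a + r ≤ M * B → ∀ ω₀,
  EE Al 0 (r * M) (fun ω => ii (OR c ω W r O)) ω₀ ≤ 4 * (2 / (q:ℝ)) ^ dm M B W r

/-- (C5b) expected contribution of the accidental relations -/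
def St_C5b : Prop := ∀ n : ℕ, ∃ C : ℕ, ∀ (q : ℕ) [Fact q.Prime], 8 ≤ q →
  ∀ (M B : ℕ) (c : Flg q M B n), IsFlags c →
  ∀ Al : ℕ → Pth q B → Finset (Blk q B), (∀ j ω, q ^ B ≤ 2 * (Al j ω).card) →
  ∀ (K0 r : ℕ) (l l' : Fin (n+2) → ℕ), ∑ a, mxv l l' a + (n + 2) ≤ M * B →
  ∑ a, mxv l l' a + r ≤ M * B → dm M B l' r ≤ n + 2 → ∀ ω₀,
  EE Al 0 (r * M) (fun ω => PP c K0 ω r l l') ω₀ ≤ C * (La q : ℝ) ^ (2 * n + 5) / 2 ^ K0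

/-- (C6) density of the allowed sets -/
def St_C6 : Prop := ∀ n : ℕ, ∃ C : ℕ, ∀ (q : ℕ) [Fact q.Prime], 3 ≤ q →
  ∀ (M B : ℕ) (c : Flg q M B n), IsFlags c → 0 < M → ∀ K0 K7 : ℕ, n + 2 ≤ K7 →
  C * (B * (M * B + 1) ^ n * La q ^ (n + 2)) ≤ 2 ^ K0 →
  ∀ (j : ℕ) (ω : Pth q B), q ^ B ≤ 2 * (AlS c K0 K7 j ω).card

/-- (C8) mean of the Fourier bound over a uniform block -/
def St_C8 : Prop := ∀ n : ℕ, ∃ C : ℕ, ∀ (q : ℕ) [Fact q.Prime], 3 ≤ q →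
  ∀ (M B : ℕ) (c : Flg q M B n), IsFlags c → ∀ K7 : ℕ, n + 2 ≤ K7 →
  ∀ (ω : Pth q B) (r : ℕ) (b : Fin M) (l : Fin (n+2) → ℕ), l ∈ IL M B n K7 r b → Exc c ω r →
  ∑ z : Blk q B, RR c (Function.update ω (r * M + (M - 1 - b)) z) l r ≤
    (q:ℝ) ^ B * (C * (La q : ℝ) ^ (n + 3))

/-- (C8b) expected Fourier bound along a random path (any level) -/
def St_C8b : Prop := ∀ n : ℕ, ∃ C : ℕ, ∀ (q : ℕ) [Fact q.Prime], 8 ≤ q →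
  ∀ (M B : ℕ) (c : Flg q M B n), IsFlags c →
  ∀ Al : ℕ → Pth q B → Finset (Blk q B), (∀ j ω, q ^ B ≤ 2 * (Al j ω).card) →
  ∀ (l : Fin (n+2) → ℕ) (r : ℕ), r < M * B → dm M B l r ≤ n + 2 → ∀ ω₀,
  EE Al 0 (M * B * M) (fun ω => RR c ω l r) ω₀ ≤ C * (La q : ℝ) ^ (n + 3)

/-- (C9) the Fourier bound is bounded on the good set -/
def St_C9 : Prop := ∀ n : ℕ, ∃ C : ℕ, ∀ (q : ℕ) [Fact q.Prime], 3 ≤ q →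
  ∀ (M B : ℕ) (c : Flg q M B n) (K0 K7 : ℕ) (ω : Pth q B) (r β : ℕ) (l : Fin (n+2) → ℕ), β < M →
  l ∈ IL M B n K7 r β → OldG c K0 K7 ω r → Gd c K0 ω l r →
  RR c ω l r ≤ C * (La q : ℝ) ^ (n + 3) * 2 ^ K0

/-- (C10) Fourier expansion of a level -/
def St_C10 : Prop := ∀ (n q : ℕ) [Fact q.Prime] (M B : ℕ) (c : Flg q M B n) (ω : Pth q B) (r : ℕ)
  (l : Fin (n+2) → ℕ), r < M * B → Exc c ω r → ∀ (X : Fin (n+2) → ℕ → ZMod q) (Y t : ℕ → ZMod q),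
  |TT c (cD M B X Y) t ω r l| ≤ RR c ω l r ∧
  ∀ ν : Vec q M B, Agr0 c X Y ω l r ν →
    ((TT c (cD M B X Y) t ω r l : ℝ) : ℂ) =
      ∑ H : Option (Fin (n+2)) → ZMod q, (ii (H none ≠ 0 ∧ Rel c ω l r H) : ℂ) *
        ((q:ℂ) ^ dm M B l r * (∏ o, Fc (tO X Y l r o) (fO M B Y r o) (H o)) *
          ZMod.stdAddChar (∑ o, H o * uO c X Y t ω l r ν o))

/-- (C11) first order bias -/
def St_C11 : Prop := ∀ n : ℕ, ∃ C : ℕ, ∀ (q : ℕ) [Fact q.Prime], Suit q → C ≤ q →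
  ∀ (M B : ℕ) (c : Flg q M B n), IsFlags c → ∀ K0 K7 : ℕ, n + 2 ≤ K7 → C * uu q ≤ K0 → K0 ≤ La q →
  ∀ (ω : Pth q B) (r : ℕ) (b : Fin M) (l : Fin (n+2) → ℕ), l ∈ IL M B n K7 r b → Exc c ω r →
  ∀ (X : Fin (n+2) → ℕ → ZMod q) (Y t : ℕ → ZMod q),
  |∑ z : Blk q B, TT c (cD M B X Y) t (Function.update ω (r * M + (M - 1 - b)) z) r l *
      ii (Gd c K0 (Function.update ω (r * M + (M - 1 - b)) z) l r)| ≤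
    (q:ℝ) ^ B * (C * (La q : ℝ) ^ (n + 1) * (uu q : ℝ) ^ 2 + PP c K0 ω r l l +
      ii (NCv c X Y t ω r b l) * (C * (La q : ℝ) ^ (n + 3)))

/-- (C12) second order bias, neighbours -/
def St_C12 : Prop := ∀ n : ℕ, ∃ C : ℕ, ∀ (q : ℕ) [Fact q.Prime], Suit q → C ≤ q →
  ∀ (M B : ℕ) (c : Flg q M B n), IsFlags c → ∀ K0 K7 : ℕ, 2 * n + 4 ≤ K7 → C * uu q ≤ K0 →
  K0 ≤ La q → ∀ (ω : Pth q B) (r : ℕ) (b : Fin M) (l l' : Fin (n+2) → ℕ), l ∈ IL M B n K7 r b →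
  l' ∈ IL M B n K7 r b → l ≠ l' → 1 ≤ dm M B (mxv l l') r → Exc c ω r →
  ∑ z : Blk q B, RR c (Function.update ω (r * M + (M - 1 - b)) z) l r *
      (ii (Gd c K0 (Function.update ω (r * M + (M - 1 - b)) z) l r) *
       ii (¬ Gd c K0 (Function.update ω (r * M + (M - 1 - b)) z) l' r)) ≤
    (q:ℝ) ^ B * (C * (La q : ℝ) ^ (n + 1) + PP c K0 ω r l l')

/-- (C13) second order bias, distant levels -/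
def St_C13 : Prop := ∀ n : ℕ, ∃ C : ℕ, ∀ (q : ℕ) [Fact q.Prime], 3 ≤ q →
  ∀ (M B : ℕ) (c : Flg q M B n), IsFlags c → ∀ K0 K7 : ℕ, n + 2 ≤ K7 →
  ∀ (ω : Pth q B) (r : ℕ) (b : Fin M) (l l' : Fin (n+2) → ℕ), l ∈ IL M B n K7 r b →
  l' ∈ IL M B n K7 r b → dm M B (mxv l l') r = 0 → Exc c ω r → PairG c K7 ω r →
  ∑ z : Blk q B, RR c (Function.update ω (r * M + (M - 1 - b)) z) l r *
       ii (¬ Gd c K0 (Function.update ω (r * M + (M - 1 - b)) z) l' r) ≤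
    (q:ℝ) ^ B * (C * (La q : ℝ) ^ (2 * n + 5) / 2 ^ K0)

/-- (C14) second moment -/
def St_C14 : Prop := ∀ n : ℕ, ∃ C : ℕ, ∀ (q : ℕ) [Fact q.Prime], 3 ≤ q →
  ∀ (M B : ℕ) (c : Flg q M B n), IsFlags c → ∀ K0 K7 : ℕ, 2 * n + 4 ≤ K7 →
  ∀ (ω : Pth q B) (r : ℕ) (b : Fin M), Exc c ω r → OldG c K0 K7 ω r → PairG c K7 ω r →
  ∑ z : Blk q B, (∑ l ∈ IL M B n K7 r b, RR c (Function.update ω (r * M + (M - 1 - b)) z) l r *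
       ii (Gd c K0 (Function.update ω (r * M + (M - 1 - b)) z) l r)) ^ 2 ≤
    (q:ℝ) ^ B * (C * (La q : ℝ) ^ (2 * n + 6) *
      (((IL M B n K7 r b).card : ℝ) ^ 2 + (IL M B n K7 r b).card * 2 ^ K0))

open Classical in
/-- (C16) number of aligned levels which are not of corner type -/
def St_C16 : Prop := ∀ (n q : ℕ) [Fact q.Prime] (M B : ℕ) (c : Flg q M B n), IsFlags c →
  ∀ K7 : ℕ, n + 2 ≤ K7 → ∀ ω : Pth q B, (∀ r ≤ M * B, Exc c ω r) →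
  ∀ (X : Fin (n+2) → ℕ → ZMod q) (Y : ℕ → ZMod q),
  ∑ r ∈ range (M * B), ∑ β ∈ range M, ((IL M B n K7 r β).filter
      (fun l => NCv c X Y (fun j => row M ω j (xX M B X)) ω r β l)).card ≤
    (n + 2) ^ 2 * (M * (M * B + 1) ^ (n + 1))

/-- (C17) the engine -/
def St_C17 : Prop := ∀ (Z : Type) [Fintype Z] [DecidableEq Z]
  (Al : ℕ → (ℕ → Z) → Finset Z) (T : ℕ) (N : ℝ), (Fintype.card Z : ℝ) = N →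
  (∀ j ω, N ≤ 2 * (Al j ω).card) → 0 < N → (∀ j, DepLT j (Al j)) →
  ∀ (Δ : Type) [Fintype Δ] [Nonempty Δ] (θ : ℝ), 0 < θ →
  ∀ (Y : Δ → ℕ → (ℕ → Z) → ℝ) (Ξ : ℕ → (ℕ → Z) → ℝ) (G : ℕ → (ℕ → Z) → Prop)
    (b : Δ → ℕ → (ℕ → Z) → ℝ) (V : ℕ → (ℕ → Z) → ℝ) (P : (ℕ → Z) → ℝ),
  (∀ δ j, DepLT (j+1) (Y δ j)) → (∀ j, DepLT (j+1) (Ξ j)) → (∀ j, DepLT j (G j)) →
  (∀ δ j, DepLT j (b δ j)) → (∀ j, DepLT j (V j)) →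
  (∀ δ j ω, |Y δ j ω| ≤ Ξ j ω) → (∀ δ j ω, 0 ≤ b δ j ω) → (∀ j ω, 0 ≤ V j ω) →
  (∀ j < T, ∀ ω, G j ω → ∑ z : Z, (Ξ j (Function.update ω j z)) ^ 2 ≤ N * V j ω) →
  (∀ δ, ∀ j < T, ∀ ω, G j ω → |∑ z ∈ Al j ω, Y δ j (Function.update ω j z)| ≤ N * b δ j ω) →
  (∀ ω, 0 ≤ P ω) → (∀ ω₀, EE Al 0 T P ω₀ ≤ 1 / 4) →
  ∃ ω : ℕ → Z, (∀ j < T, ω j ∈ Al j ω) ∧ P ω < 1 ∧ ∀ δ : Δ,
    |∑ j ∈ range T, ii (G j ω) * Y δ j ω| ≤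
      ∑ j ∈ range T, ii (G j ω) * (2 * b δ j ω + 4 * θ * V j ω + θ * (Ξ j ω) ^ 2) +
        Real.log (8 * Fintype.card Δ) / θ

/-- (C19) a new coordinate -/
def St_C19 : Prop := ∀ (n q : ℕ) [Fact q.Prime] (M B : ℕ) (c : Flg q M B n), IsFlags c →
  ∀ ω : Pth q B, (∀ r ≤ M * B, Exc c ω r) → IsFlags (newF c ω) ∧
    ∀ E E1 : ℝ, GB c E → 0 ≤ E1 →
    (∀ (X : Fin (n+2) → ℕ → ZMod q) (Y : ℕ → ZMod q), (∀ a j, M * B ≤ j → X a j = 0) →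
      (∀ j, M * B ≤ j → Y j = 0) → |∑ r ∈ range (M * B), XX c (cD M B X Y) ω r| ≤ E1) →
    GB (newF c ω) (E + E1)

/-- (C20) dimension two -/
def St_C20 : Prop := ∃ C : ℕ, ∀ (q : ℕ) [Fact q.Prime], 3 ≤ q → ∀ M B : ℕ, 0 < M → 0 < B →
  ∃ c : Flg q M B 0, IsFlags c ∧ GB c (C * ((M * B : ℕ) : ℝ) * (La q : ℝ) ^ 2)

/-- (C21a) from digit corners to real corners -/
def St_C21a : Prop := ∀ (n q : ℕ) [Fact q.Prime] (M B : ℕ) (c : Flg q M B n), IsFlags c →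
  ∀ E : ℝ, 0 ≤ E → GB c E → ∃ ξ : Fin (q ^ (M * B)) → Fin (n + 2) → ℝ,
    (∀ i j, 0 ≤ ξ i j ∧ ξ i j < 1) ∧
    ∀ x : Fin (n + 2) → ℝ, (∀ j, 0 ≤ x j) → (∀ j, x j ≤ 1) →
    |(((univ : Finset (Fin (q ^ (M * B)))).filter (fun i => ∀ j, ξ i j < x j)).card : ℝ)
      - ((q ^ (M * B) : ℕ) : ℝ) * ∏ j, x j| ≤ E + (2 * n + 5)

/-- what the path part provides -/
def St_Nets : Prop := ∀ n : ℕ, 1 ≤ n → ∃ (e C : ℕ), ∀ (q : ℕ) [Fact q.Prime], Suit q → C ≤ q →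
  ∃ c : Flg q (La q ^ e) (La q ^ 2) n, IsFlags c ∧
    GB c (C * ((La q : ℝ) ^ (e + 2)) ^ (n + 1) * (La q : ℝ) ^ n * (uu q : ℝ) ^ 2)

/-- (C21) the final statement (half open boxes) -/
def St_C21 : Prop := ∀ n : ℕ, 1 ≤ n → ∃ δ : ℝ, 0 < δ ∧ ∃ C : ℝ, 0 < C ∧ ∀ N : ℕ, 3 ≤ N →
    ∃ ξ : Fin N → Fin (n + 2) → ℝ, (∀ i j, 0 ≤ ξ i j ∧ ξ i j < 1) ∧
      ∀ x : Fin (n + 2) → ℝ, (∀ j, 0 ≤ x j) → (∀ j, x j ≤ 1) →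
      |(((univ : Finset (Fin N)).filter (fun i => ∀ j, ξ i j < x j)).card : ℝ)
        - N * ∏ j, x j| ≤ C * (Real.log N) ^ ((n:ℝ) + 1 - δ)

end Pool.Agent.Y258
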