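import Pool.Agent.Y258.SD.CStmts

set_option autoImplicit false

/-!
# Statements of the assembly
-/

namespace Pool.Agent.Y258

open Finset Pool.Agent.H470D4
open Pool.Agent.H935R2.PS (La uu nn dl mx Suit)

/-- (C18) a random row process, parameters still free -/
def St_C18 : Prop := ∀ n : ℕ, ∃ C : ℕ, ∀ (q : ℕ) [Fact q.Prime], Suit q → C ≤ q →
  ∀ (M B : ℕ) (c : Flg q M B n), IsFlags c → 0 < M → 0 < B → ∀ K0 : ℕ, C * uu q ≤ K0 →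
  K0 ≤ La q → C * (B * (M * B + 1) ^ n * La q ^ (n + 4)) ≤ 2 ^ K0 →
  C * (M * B + 1) ^ (2 * n + 6) ≤ q → ∀ θ : ℝ, 0 < θ →
  ∃ ω : Pth q B, (∀ r ≤ M * B, Exc c ω r) ∧
    ∀ (X : Fin (n+2) → ℕ → ZMod q) (Y : ℕ → ZMod q), (∀ a j, M * B ≤ j → X a j = 0) →
      (∀ j, M * B ≤ j → Y j = 0) →
      |∑ r ∈ range (M * B), XX c (cD M B X Y) ω r| ≤
        C * (((M * B : ℕ) : ℝ) ^ (n + 2) * (La q : ℝ) ^ (n + 1) * (uu q : ℝ) ^ 2 +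
          ((M * B : ℕ) : ℝ) ^ (n + 1) * M * (La q : ℝ) ^ (n + 3) +
          θ * (((M * B : ℕ) : ℝ) * M * (La q : ℝ) ^ (2 * n + 6) *
            ((B : ℝ) ^ 2 * ((M * B : ℕ) : ℝ) ^ (2 * n) + B * ((M * B : ℕ) : ℝ) ^ n * 2 ^ K0) + 1) +
          ((M * B : ℕ) : ℝ) * (La q : ℝ) / θ)

/-- (Core) one stage with the parameters chosen -/
def St_Core : Prop := ∀ n : ℕ, ∃ e₀ : ℕ, ∀ e : ℕ, e₀ ≤ e → ∃ C : ℕ, ∀ (q : ℕ) [Fact q.Prime],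
  Suit q → C ≤ q → ∀ c : Flg q (La q ^ e) (La q ^ 2) n, IsFlags c →
  ∃ ω : Pth q (La q ^ 2), (∀ r ≤ La q ^ e * La q ^ 2, Exc c ω r) ∧
    ∀ (X : Fin (n+2) → ℕ → ZMod q) (Y : ℕ → ZMod q),
      (∀ a j, La q ^ e * La q ^ 2 ≤ j → X a j = 0) → (∀ j, La q ^ e * La q ^ 2 ≤ j → Y j = 0) →
      |∑ r ∈ range (La q ^ e * La q ^ 2), XX c (cD (La q ^ e) (La q ^ 2) X Y) ω r| ≤
        C * ((La q : ℝ) ^ (e + 2)) ^ (n + 2) * (La q : ℝ) ^ (n + 1) * (uu q : ℝ) ^ 2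

end Pool.Agent.Y258
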