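import Pool.Agent.Y258.SD.U

set_option autoImplicit false
set_option linter.unusedSectionVars false

/-!
# Measurability
-/

namespace Pool.Agent.Y258

open Finset Pool.Agent.H470D4
open Pool.Agent.H935R2.PS (La uu nn dl mx Suit)

section meas
variable {q M B n : ℕ} [Fact q.Prime]

lemma AA_agr (c : Flg q M B n) {r : ℕ} {ω ω' : Pth q B} (h : Agr (r * M) ω ω') :
    ∀ W, AA c ω W r = AA c ω' W r := fun W => AA_dep c W r ω ω' h

lemma Exc_agr (c : Flg q M B n) {r : ℕ} {ω ω' : Pth q B} (h : Agr (r * M) ω ω') :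
    Exc c ω r ↔ Exc c ω' r :=
  forall_congr' fun W => by rw [AA_agr c h W]

lemma OR_agr (c : Flg q M B n) {r : ℕ} {ω ω' : Pth q B} (h : Agr (r * M) ω ω')
    (W : Fin (n+2) → ℕ) (O : Fin (n+2) → ZMod q) : OR c ω W r O ↔ OR c ω' W r O := by
  unfold OR
  rw [AA_agr c h]

lemma OldG_agr (c : Flg q M B n) {K0 K7 r : ℕ} {ω ω' : Pth q B} (h : Agr (r * M) ω ω') :
    OldG c K0 K7 ω r ↔ OldG c K0 K7 ω' r := by
  unfold OldG
  simp only [OR_agr c h]

lemma PairG_agr (c : Flg q M B n) {K7 r : ℕ} {ω ω' : Pth q B} (h : Agr (r * M) ω ω') :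
    PairG c K7 ω r ↔ PairG c K7 ω' r := by
  unfold PairG
  simp only [AA_agr c h]

lemma PP_agr (c : Flg q M B n) {K0 r : ℕ} {ω ω' : Pth q B} (h : Agr (r * M) ω ω')
    (l l' : Fin (n+2) → ℕ) : PP c K0 ω r l l' = PP c K0 ω' r l l' := by
  unfold PP
  simp only [OR_agr c h]

lemma row_agr {r β : ℕ} {ω ω' : Pth q B} (h : Agr (r * M + (M - β)) ω ω')
    {v : Vec q M B} (hv : v ∈ Vb q M B β) : row M ω r v = row M ω' r v :=
  row_congr (fun k hk => h _ (by omega)) hv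

lemma Rel_agr {c : Flg q M B n} (hc : IsFlags c) {K7 r : ℕ} {b : ℕ} {ω ω' : Pth q B}
    {l : Fin (n+2) → ℕ} (hl : l ∈ IL M B n K7 r b)
    (h : Agr (r * M + (M - b)) ω ω') (H : Option (Fin (n+2)) → ZMod q) :
    Rel c ω l r H ↔ Rel c ω' l r H := by
  unfold Rel
  rw [← AA_agr c (h.mono (by omega))]
  refine forall₂_congr fun v hv => ?_
  rw [row_agr h (AA_le_Vb' hc hl hv)]

lemma Gd_agr {c : Flg q M B n} (hc : IsFlags c) {K0 K7 r : ℕ} {b : ℕ} {ω ω' : Pth q B}
    {l : Fin (n+2) → ℕ} (hl : l ∈ IL M B n K7 r b)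
    (h : Agr (r * M + (M - b)) ω ω') : Gd c K0 ω l r ↔ Gd c K0 ω' l r :=
  forall_congr' fun H => forall_congr' fun _ => by rw [Rel_agr hc hl h H]

lemma RR_agr {c : Flg q M B n} (hc : IsFlags c) {K7 r : ℕ} {b : ℕ} {ω ω' : Pth q B}
    {l : Fin (n+2) → ℕ} (hl : l ∈ IL M B n K7 r b)
    (h : Agr (r * M + (M - b)) ω ω') : RR c ω l r = RR c ω' l r := by
  classical
  unfold RR
  refine sum_congr ?_ fun _ _ => rfl
  apply Finset.filter_congr
  intro H _
  rw [Rel_agr hc hl h H]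

lemma cD_x (M B : ℕ) (X : Fin (n+2) → ℕ → ZMod q) (Y : ℕ → ZMod q) (a : Fin (n+2)) (j : ℕ) :
    (cD M B X Y).x a j = X a j := by
  unfold cD mkDat
  simp

lemma cD_y (M B : ℕ) (X : Fin (n+2) → ℕ → ZMod q) (Y : ℕ → ZMod q) (j : ℕ) :
    (cD M B X Y).y j = Y j := by
  unfold cD mkDat
  simp

lemma xv_cD (M B : ℕ) (X : Fin (n+2) → ℕ → ZMod q) (Y : ℕ → ZMod q) :
    xv M B (cD M B X Y) = xX M B X := by
  funext i
  unfold xv xX
  rw [cD_x]

lemma TT_agr {c : Flg q M B n} (hc : IsFlags c) {K7 r : ℕ} {b : ℕ} {ω ω' : Pth q B}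
    {l : Fin (n+2) → ℕ} (hl : l ∈ IL M B n K7 r b)
    (h : Agr (r * M + (M - b)) ω ω') (d : Dat q n) (t : ℕ → ZMod q) :
    TT c d t ω r l = TT c d t ω' r l := by
  unfold TT
  have e1 : cell c d ω r l = cell c d ω' r l := cell_dep c d r l ω ω' (h.mono (by omega))
  rw [e1]
  refine sum_congr rfl fun ν hν => ?_
  rw [mem_cell] at hν
  rw [mem_IL] at hl
  rw [row_agr h (sub_mem_Vb hc hν.1 hl.2.1)]

lemma NCv_agr (c : Flg q M B n) {r β : ℕ} {ω ω' : Pth q B}
    {l : Fin (n+2) → ℕ} (h : Agr (r * M + (M - (β+1))) ω ω')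
    (X : Fin (n+2) → ℕ → ZMod q) (Y t : ℕ → ZMod q) :
    NCv c X Y t ω r β l ↔ NCv c X Y t ω' r β l := by
  unfold NCv
  refine exists_congr fun ν => ?_
  have e1 : Agr0 c X Y ω l r ν ↔ Agr0 c X Y ω' l r ν := by
    unfold Agr0
    constructor
    · rintro ⟨h1, h2⟩
      exact ⟨h1, fun j hj => by rw [← row_dep hj (h.mono (by omega))]; exact h2 j hj⟩
    · rintro ⟨h1, h2⟩
      exact ⟨h1, fun j hj => by rw [row_dep hj (h.mono (by omega))]; exact h2 j hj⟩
  constructor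
  · rintro ⟨h1, h2, h3⟩
    refine ⟨e1.1 h1, h2, ?_⟩
    intro h4
    apply h3
    rw [← h4]
    funext o
    cases o with
    | none => simp only [uO, Option.elim]; rw [row_agr h h2]
    | some a => rfl
  · rintro ⟨h1, h2, h3⟩
    refine ⟨e1.2 h1, h2, ?_⟩
    intro h4
    apply h3
    rw [← h4]
    funext o
    cases o with
    | none => simp only [uO, Option.elim]; rw [row_agr h h2]
    | some a => rfl

lemma NCv_t (c : Flg q M B n) {r β : ℕ} {ω : Pth q B} {l : Fin (n+2) → ℕ}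
    (X : Fin (n+2) → ℕ → ZMod q) (Y : ℕ → ZMod q) {t t' : ℕ → ZMod q} (h : t r = t' r) :
    NCv c X Y t ω r β l ↔ NCv c X Y t' ω r β l := by
  unfold NCv
  refine exists_congr fun ν => ?_
  have e : uO c X Y t ω l r ν = uO c X Y t' ω l r ν := by
    funext o
    cases o with
    | none => simp only [uO, Option.elim]; rw [h]
    | some a => rfl
  rw [e]

/-- the times -/
lemma jr_div {r b : ℕ} (hb : b < M) : (r * M + (M - 1 - b)) / M = r := by
  have hM : 0 < M := by omega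
  rw [mul_comm, Nat.mul_add_div hM, Nat.div_eq_of_lt (by omega), add_zero]

lemma jr_mod {r b : ℕ} (hb : b < M) : (r * M + (M - 1 - b)) % M = M - 1 - b := by
  rw [mul_comm, Nat.mul_add_mod, Nat.mod_eq_of_lt (by omega)]

lemma jr_eq {j : ℕ} (hM : 0 < M) : j = (j / M) * M + (M - 1 - (M - 1 - j % M)) := by
  have h1 := Nat.mod_lt j hM
  rw [show M - 1 - (M - 1 - j % M) = j % M by omega, mul_comm]
  exact (Nat.div_add_mod j M).symm

/-- sums over the times -/
lemma sum_times (R : ℕ) (g : ℕ → ℕ → ℝ) :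
    ∑ j ∈ range (R * M), g (j / M) (M - 1 - j % M) = ∑ r ∈ range R, ∑ b ∈ range M, g r b := by
  rcases Nat.eq_zero_or_pos M with hM | hM
  · subst hM; simp
  induction R with
  | zero => simp
  | succ R ih =>
    rw [sum_range_succ, ← ih, Nat.succ_mul, sum_range_add]
    congr 1
    rw [← sum_range_reflect]
    refine sum_congr rfl fun k hk => ?_
    rw [mem_range] at hk
    have h1 : (R * M + (M - 1 - k)) / M = R := jr_div hk
    have h2 : (R * M + (M - 1 - k)) % M = M - 1 - k := jr_mod hk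
    rw [h1, h2, show M - 1 - (M - 1 - k) = k by omega]

end meas

end Pool.Agent.Y258
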