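import Pool.Agent.Y258.SD.Core1

set_option autoImplicit false
set_option linter.unusedSectionVars false

/-!
# Counts and the deterministic decomposition of a row
-/

namespace Pool.Agent.Y258

open Finset Pool.Agent.H470D4
open Pool.Agent.H935R2.PS (La uu nn dl mx Suit)

/-- levels of dimension between `1` and `n+2` -/
def Mid (M B n r : ℕ) : Finset (Fin (n+2) → ℕ) :=
  (Lbox M B n).filter (fun l => ∑ a, l a + r < M * B ∧ M * B ≤ ∑ a, l a + r + (n + 2))

/-- the boundary levels -/
def Bdr (M B n K7 r : ℕ) : Finset (Fin (n+2) → ℕ) :=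
  (Mid M B n r).filter (fun l => (l 0 / B + 1) * B < l 0 + K7)

/-- the levels of a row which are estimated trivially -/
def BdS (M B n K7 r : ℕ) : Finset (Fin (n+2) → ℕ) :=
  if r < n + 3 then Mid M B n r else Bdr M B n K7 r

lemma mem_Mid {M B n r : ℕ} {l : Fin (n+2) → ℕ} : l ∈ Mid M B n r ↔ (∀ a, l a < M * B) ∧
    ∑ a, l a + r < M * B ∧ M * B ≤ ∑ a, l a + r + (n + 2) := by
  unfold Mid Lbox
  rw [mem_filter, Fintype.mem_piFinset]
  simp only [Finset.mem_range]

section counts

lemma card_sum_fix (m n s : ℕ) :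
    ((Fintype.piFinset (fun _ : Fin (n+2) => range m)).filter
      (fun l => ∑ a, l a = s)).card ≤ m ^ (n+1) := by
  classical
  have hcard : (Fintype.piFinset (fun _ : Fin (n+1) => range m)).card = m ^ (n+1) := by simp
  rw [← hcard]
  apply card_le_card_of_injOn (fun W a => W (Fin.castSucc a))
  · intro W hW
    rw [mem_coe, mem_filter, Fintype.mem_piFinset] at hW
    rw [mem_coe, Fintype.mem_piFinset]
    intro a
    exact hW.1 _
  · intro W hW W' hW' hWW
    rw [mem_coe, mem_filter] at hW hW'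
    have h1 : ∀ a : Fin (n + 1), W (Fin.castSucc a) = W' (Fin.castSucc a) := fun a => congrFun hWW a
    have h2 := hW.2
    have h3 := hW'.2
    rw [Fin.sum_univ_castSucc] at h2 h3
    rw [sum_congr rfl (fun a _ => h1 a)] at h2
    funext a
    refine Fin.lastCases ?_ (fun a => ?_) a
    · omega
    · exact h1 a

/-- dimension between `1` and `n + 2`: union over the sums -/
lemma card_dims {M B n r : ℕ} (P : (Fin (n+2) → ℕ) → Prop) [DecidablePred P] (N : ℕ)
    (h : ∀ s, ((Lbox M B n).filter (fun l => ∑ a, l a = s ∧ P l)).card ≤ N) :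
    ((Mid M B n r).filter P).card ≤ (n + 2) * N := by
  classical
  have hsub : (Mid M B n r).filter P ⊆ (range (n+2)).biUnion
      (fun i => (Lbox M B n).filter (fun l => ∑ a, l a = M * B - r - 1 - i ∧ P l)) := by
    intro l hl
    rw [mem_filter] at hl
    have h1 := hl.1
    unfold Mid at h1
    rw [mem_filter] at h1
    rw [mem_biUnion]
    refine ⟨M * B - 1 - r - ∑ a, l a, ?_, ?_⟩
    · rw [mem_range]; omega
    · rw [mem_filter]
      exact ⟨h1.1, by omega, hl.2⟩
  refine (card_le_card hsub).trans (card_biUnion_le.trans ?_)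
  calc ∑ i ∈ range (n+2), ((Lbox M B n).filter
        (fun l => ∑ a, l a = M * B - r - 1 - i ∧ P l)).card ≤ ∑ _i ∈ range (n+2), N :=
        sum_le_sum fun i _ => h _
    _ = (n + 2) * N := by simp

lemma card_Mid (M B n r : ℕ) : (Mid M B n r).card ≤ (n + 2) * (M * B) ^ (n+1) := by
  have h := card_dims (M := M) (B := B) (n := n) (r := r) (fun _ => True) ((M * B) ^ (n+1)) (by
    intro s
    simp only [and_true]
    exact card_sum_fix (M * B) n s)
  rwa [Finset.filter_true] at h

lemma card_IL {M B n K7 r β : ℕ} (hK : 1 ≤ K7) :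
    (IL M B n K7 r β).card ≤ (n + 2) * (B * (M * B) ^ n) := by
  have h := card_dims (M := M) (B := B) (n := n) (r := r)
    (fun l => β * B ≤ l 0 ∧ l 0 < (β+1) * B) (B * (M * B) ^ n) (fun s => card_fix (M * B) B β s)
  refine le_trans (card_le_card ?_) h
  intro l hl
  rw [mem_IL] at hl
  rw [mem_filter, mem_Mid]
  exact ⟨⟨hl.1, hl.2.2.2.1, hl.2.2.2.2⟩, hl.2.1, by omega⟩

lemma card_bd_fix {M B n K7 s : ℕ} :
    ((Lbox M B n).filter (fun l => ∑ a, l a = s ∧ (l 0 / B + 1) * B < l 0 + K7)).card ≤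
      M * K7 * (M * B) ^ n := by
  classical
  rcases Nat.eq_zero_or_pos B with hB | hB
  · subst hB
    have : Lbox M 0 n = ∅ := by
      unfold Lbox
      rw [Finset.eq_empty_iff_forall_notMem]
      intro l hl
      rw [Fintype.mem_piFinset] at hl
      have := mem_range.1 (hl 0)
      omega
    rw [this]
    simp
  have hcard : (range M ×ˢ (range K7 ×ˢ (Fintype.piFinset (fun _ : Fin n => range (M * B))))).card =
      M * K7 * (M * B) ^ n := by
    simp [mul_assoc]
  rw [← hcard]
  apply Finset.card_le_card_of_injOn (fun l => (l 0 / B, ((l 0 / B + 1) * B - l 0,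
    fun i : Fin n => l i.succ.castSucc)))
  · intro l hl
    unfold Lbox at hl
    simp only [Finset.coe_filter, Set.mem_ofPred_eq, Fintype.mem_piFinset, Finset.mem_range] at hl
    simp only [Finset.coe_product, Set.mem_prod, Finset.mem_coe, Finset.mem_range,
      Fintype.mem_piFinset]
    obtain ⟨h1, _, h3⟩ := hl
    have h4 := Nat.lt_mul_of_div_lt (Nat.lt_succ_self (l 0 / B)) hB
    have h5 : (l 0 / B).succ * B = (l 0 / B + 1) * B := rfl
    refine ⟨?_, ?_, fun i => h1 _⟩
    · exact Nat.div_lt_of_lt_mul (by rw [mul_comm]; exact h1 0)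
    · omega
  · intro l hl l' hl' he
    simp only [Finset.coe_filter, Set.mem_ofPred_eq] at hl hl'
    obtain ⟨_, h2, h3⟩ := hl
    obtain ⟨_, h2', h3'⟩ := hl'
    simp only [Prod.mk.injEq] at he
    obtain ⟨e1, e2, e3⟩ := he
    have h4 := Nat.lt_mul_of_div_lt (Nat.lt_succ_self (l 0 / B)) hB
    have h4' := Nat.lt_mul_of_div_lt (Nat.lt_succ_self (l' 0 / B)) hB
    rw [e1] at e2 h4
    have e0 : l 0 = l' 0 := by
      have : (l' 0 / B).succ * B = (l' 0 / B + 1) * B := rfl
      omega
    have emid : ∀ i : Fin (n+1), l i.castSucc = l' i.castSucc := by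
      intro i
      refine Fin.cases ?_ (fun j => ?_) i
      · exact e0
      · exact congrFun e3 j
    have elast : l (Fin.last (n+1)) = l' (Fin.last (n+1)) := by
      rw [Fin.sum_univ_castSucc] at h2 h2'
      have : ∑ i : Fin (n+1), l i.castSucc = ∑ i : Fin (n+1), l' i.castSucc :=
        Finset.sum_congr rfl fun i _ => emid i
      omega
    funext a
    refine Fin.lastCases ?_ (fun i => ?_) a
    · exact elast
    · exact emid i

lemma card_Bdr (M B n K7 r : ℕ) :
    (Bdr M B n K7 r).card ≤ (n + 2) * (M * K7 * (M * B) ^ n) :=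
  card_dims (M := M) (B := B) (n := n) (r := r) _ _ (fun _ => card_bd_fix)

lemma card_BdS (M B n K7 : ℕ) :
    ∑ r ∈ range (M * B), (BdS M B n K7 r).card ≤
      (n + 3) * ((n + 2) * (M * B) ^ (n+1)) + (M * B) * ((n + 2) * (M * K7 * (M * B) ^ n)) := by
  classical
  have h1 : ∀ r ∈ range (M * B), (BdS M B n K7 r).card ≤
      (if r < n + 3 then (n + 2) * (M * B) ^ (n+1) else 0) +
        (n + 2) * (M * K7 * (M * B) ^ n) := by
    intro r _
    unfold BdS
    split_ifs
    · exact (card_Mid M B n r).trans (Nat.le_add_right _ _)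
    · rw [zero_add]; exact card_Bdr M B n K7 r
  refine (sum_le_sum h1).trans ?_
  rw [sum_add_distrib, sum_const, card_range, smul_eq_mul]
  apply Nat.add_le_add_right
  rw [← sum_filter, sum_const, smul_eq_mul]
  apply Nat.mul_le_mul_right
  calc ((range (M * B)).filter (fun r => r < n + 3)).card ≤ (range (n + 3)).card := by
        apply card_le_card
        intro r hr
        rw [mem_filter] at hr
        exact mem_range.2 hr.2
    _ = n + 3 := card_range _

end counts

section decomp
variable {q M B n : ℕ} [Fact q.Prime]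

/-- the middle levels of a row: interior and boundary -/
lemma Mid_split {K7 : ℕ} (hK : 1 ≤ K7) (r : ℕ) (g : (Fin (n+2) → ℕ) → ℝ) :
    ∑ l ∈ Mid M B n r, g l = ∑ b ∈ range M, ∑ l ∈ IL M B n K7 r b, g l +
      ∑ l ∈ Bdr M B n K7 r, g l := by
  classical
  rw [← Finset.sum_filter_not_add_sum_filter (Mid M B n r)
    (fun l : Fin (n+2) → ℕ => (l 0 / B + 1) * B < l 0 + K7)]
  congr 1
  rw [← Finset.sum_fiberwise_of_maps_to (g := fun l : Fin (n+2) → ℕ => l 0 / B) (t := range M)]
  · apply Finset.sum_congr rfl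
    intro b hb
    apply Finset.sum_congr _ (fun _ _ => rfl)
    ext l
    rw [Finset.mem_filter, Finset.mem_filter, mem_Mid, mem_IL]
    constructor
    · rintro ⟨⟨⟨h1, h2, h3⟩, h4⟩, h5⟩
      rw [h5, not_lt] at h4
      have h7 := Nat.div_mul_le_self (l 0) B
      rw [h5] at h7
      exact ⟨h1, h7, h4, h2, h3⟩
    · rintro ⟨h1, h2, h3, h4, h5⟩
      rcases Nat.eq_zero_or_pos B with hB | hB
      · subst hB; have := h1 0; omega
      have h6 : l 0 / B = b := Nat.div_eq_of_lt_le h2 (by omega)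
      exact ⟨⟨⟨h1, h4, h5⟩, by rw [h6]; omega⟩, h6⟩
  · intro l hl
    rw [Finset.mem_filter, mem_Mid] at hl
    rw [Finset.mem_range]
    exact Nat.div_lt_of_lt_mul (by rw [mul_comm]; exact hl.1.1 0)

/-- the levels of dimension zero -/
lemma small_sum (c : Flg q M B n) (d : Dat q n) (t : ℕ → ZMod q) (ω : Pth q B) (r : ℕ)
    (hr : r ≤ M * B) (hE : Exc c ω r) :
    ∑ l ∈ (Lbox M B n).filter (fun l => M * B ≤ ∑ a, l a + r), |TT c d t ω r l| ≤
      ((M * B + 1 : ℕ) : ℝ) ^ (n + 1) := by
  classical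
  have h1 : ∑ l ∈ (Lbox M B n).filter (fun l => M * B ≤ ∑ a, l a + r), |TT c d t ω r l| ≤
      ∑ l ∈ (Lbox M B n).filter (fun l => M * B ≤ ∑ a, l a + r), ((cell c d ω r l).card : ℝ) :=
    sum_le_sum fun l _ => TT_card c d t ω r l
  refine h1.trans ?_
  have hch : ∀ l : Fin (n+2) → ℕ, ∃ W : Fin (n+2) → ℕ, M * B ≤ ∑ a, l a + r →
      (∀ a, W a ≤ l a) ∧ ∑ a, W a = M * B - r := by
    intro l
    by_cases h : M * B ≤ ∑ a, l a + r
    · obtain ⟨e, he⟩ := Nat.exists_eq_add_of_le (show M * B - r ≤ ∑ a, l a by omega)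
      obtain ⟨W, h1, h2⟩ := exists_le_sumN _ e l he
      exact ⟨W, fun _ => ⟨h1, h2⟩⟩
    · exact ⟨l, fun h' => absurd h' h⟩
  choose g hg using hch
  have hbot : ∀ W : Fin (n+2) → ℕ, ∑ a, W a = M * B - r → AA c ω W r = ⊥ := by
    intro W hW
    rw [← Submodule.finrank_eq_zero (R := ZMod q), hE]
    unfold dm
    omega
  have h2 : ∑ l ∈ (Lbox M B n).filter (fun l => M * B ≤ ∑ a, l a + r), (cell c d ω r l).card ≤
      (WW n (M * B) (M * B - r)).card := by
    rw [← Finset.card_sigma]
    apply card_le_card_of_injOn (fun x => g x.1)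
    · intro x hx
      rw [mem_coe, mem_sigma, mem_filter] at hx
      have h3 := hg x.1 hx.1.2
      rw [mem_coe, WW, mem_filter, Fintype.mem_piFinset]
      refine ⟨fun a => ?_, h3.2⟩
      have h4 := hx.1.1
      rw [Lbox, Fintype.mem_piFinset] at h4
      have h5 := mem_range.1 (h4 a)
      have h6 := h3.1 a
      show g x.1 a ∈ range (M * B + 1)
      rw [mem_range]; omega
    · rintro ⟨l, ν⟩ hx ⟨l', ν'⟩ hx' he
      rw [mem_coe, mem_sigma, mem_filter] at hx hx'
      have he' : g l = g l' := he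
      have h3 := hg l hx.1.2
      have h3' := hg l' hx'.1.2
      have h4 := mem_cell.1 hx.2
      have h4' := mem_cell.1 hx'.2
      have h5 : ν - ν' ∈ AA c ω (g l) r := by
        refine ⟨fun a j hj => ?_, fun j hj => ?_⟩
        · rw [map_sub, (h4.1 a).1 j (lt_of_lt_of_le hj (h3.1 a)),
            (h4'.1 a).1 j (lt_of_lt_of_le hj (by rw [he']; exact h3'.1 a)), sub_self]
        · rw [map_sub, h4.2 j hj, h4'.2 j hj, sub_self]
      rw [hbot _ h3.2, Submodule.mem_bot, sub_eq_zero] at h5
      have h5' : ν = ν' := h5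
      subst h5'
      have h6 := lev_unique h4.1 h4'.1
      have h6' : l = l' := h6
      subst h6'
      rfl
  have h3 := h2.trans (card_WW n (M * B) (M * B - r))
  exact_mod_cast h3

/-- the contribution of a row, up to the interior levels -/
theorem row_decomp (h10 : St_C10) (c : Flg q M B n) {K7 : ℕ} (hK : 1 ≤ K7) (ω : Pth q B)
    (hE : ∀ r ≤ M * B, Exc c ω r) (hN : NoRel c ω) (X : Fin (n+2) → ℕ → ZMod q)
    (Y t : ℕ → ZMod q) {r : ℕ} (hr : r < M * B) (ht : t r = row M ω r (xX M B X)) :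
    |XX c (cD M B X Y) ω r - (if r < n + 3 then 0 else
      ∑ b ∈ range M, ∑ l ∈ IL M B n K7 r b, TT c (cD M B X Y) t ω r l)| ≤
      ((M * B + 1 : ℕ) : ℝ) ^ (n + 1) + ∑ l ∈ BdS M B n K7 r, RR c ω l r := by
  classical
  rw [XX_eq_TT c _ ω r t (by rw [xv_cD]; exact ht)]
  set T : (Fin (n+2) → ℕ) → ℝ := fun l => TT c (cD M B X Y) t ω r l with hT
  have hbound : ∀ l, |T l| ≤ RR c ω l r := fun l => (h10 n q M B c ω r l hr (hE r hr.le) X Y t).1
  have hbig : ∀ l ∈ (Lbox M B n).filter (fun l => ∑ a, l a + r + (n + 3) ≤ M * B), T l = 0 := by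
    intro l hl
    rw [mem_filter] at hl
    have h1 := hbound l
    have h2 : RR c ω l r = 0 := by
      unfold RR
      rw [Finset.filter_false_of_mem, sum_empty]
      rintro H _ ⟨h3, h4⟩
      exact hN l r hr hl.2 H h3 h4
    rw [h2] at h1
    exact abs_nonpos_iff.1 h1
  have hsplit : ∑ l ∈ Lbox M B n, T l =
      ∑ l ∈ (Lbox M B n).filter (fun l => ∑ a, l a + r + (n + 3) ≤ M * B), T l +
      (∑ l ∈ Mid M B n r, T l +
       ∑ l ∈ (Lbox M B n).filter (fun l => M * B ≤ ∑ a, l a + r), T l) := by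
    rw [← Finset.sum_filter_add_sum_filter_not (Lbox M B n)
      (fun l => ∑ a, l a + r + (n + 3) ≤ M * B)]
    congr 1
    rw [← Finset.sum_filter_not_add_sum_filter
      ((Lbox M B n).filter (fun l => ¬ (∑ a, l a + r + (n + 3) ≤ M * B)))
      (fun l => M * B ≤ ∑ a, l a + r), Finset.filter_filter, Finset.filter_filter]
    congr 1
    · apply Finset.sum_congr _ (fun _ _ => rfl)
      unfold Mid
      apply Finset.filter_congr
      intro l _
      omega
    · apply Finset.sum_congr _ (fun _ _ => rfl)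
      apply Finset.filter_congr
      intro l _
      omega
  rw [hsplit, sum_eq_zero hbig, zero_add]
  have hsmall := (Finset.abs_sum_le_sum_abs (fun l => T l)
    ((Lbox M B n).filter (fun l => M * B ≤ ∑ a, l a + r))).trans
    (small_sum c (cD M B X Y) t ω r hr.le (hE r hr.le))
  by_cases h3 : r < n + 3
  · rw [if_pos h3, sub_zero]
    have h4 : |∑ l ∈ Mid M B n r, T l| ≤ ∑ l ∈ BdS M B n K7 r, RR c ω l r := by
      unfold BdS
      rw [if_pos h3]
      exact (abs_sum_le_sum_abs _ _).trans (sum_le_sum fun l _ => hbound l)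
    refine (abs_add_le _ _).trans ?_
    linarith
  · rw [if_neg h3, Mid_split hK]
    have h4 : |∑ l ∈ Bdr M B n K7 r, T l| ≤ ∑ l ∈ BdS M B n K7 r, RR c ω l r := by
      unfold BdS
      rw [if_neg h3]
      exact (abs_sum_le_sum_abs _ _).trans (sum_le_sum fun l _ => hbound l)
    rw [show ∀ a b s : ℝ, a + b + s - a = b + s by intros; ring]
    refine (abs_add_le _ _).trans ?_
    linarith

end decomp

end Pool.Agent.Y258
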