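import Pool.Agent.Y258.SD.Core3
import Pool.Agent.Y258.SD.CStmts2

set_option autoImplicit false
set_option linter.unusedSectionVars false

/-!
# Expectations of the costs
-/

namespace Pool.Agent.Y258

open Finset Pool.Agent.H470D4
open Pool.Agent.H935R2.PS (La uu nn dl mx Suit)

section EEb
variable {q M B n : ℕ} [Fact q.Prime]

lemma EE_cst (Al : ℕ → Pth q B → Finset (Blk q B)) (hne : ∀ j ω, (Al j ω).Nonempty) (T : ℕ)
    (a : ℝ) (ω₀ : Pth q B) : EE Al 0 T (fun _ => a) ω₀ = a :=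
  EE_dep Al hne 0 T (fun _ _ _ => rfl) ω₀

lemma EE_Xi (Al : ℕ → Pth q B → Finset (Blk q B)) (hB : ∀ j ω, q ^ B ≤ 2 * (Al j ω).card)
    (h4 : 4 ≤ q) {c : Flg q M B n} (hc : IsFlags c) (hM : 0 < M) {K0 K7 j T : ℕ} (hjT : j < T)
    {V : ℝ} (hV0 : 0 ≤ V)
    (hV : ∀ ω, GG c K0 K7 j ω → ∑ z : Blk q B, (Xij c K0 K7 j (Function.update ω j z)) ^ 2 ≤
      (q:ℝ) ^ B * V) (ω₀ : Pth q B) :
    EE Al 0 T (fun ω => ii (GG c K0 K7 j ω) * (Xij c K0 K7 j ω) ^ 2) ω₀ ≤ 2 * V := by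
  have hne := Al_ne h4 Al hB
  have hdep : DepLT (j+1) (fun ω : Pth q B => ii (GG c K0 K7 j ω) * (Xij c K0 K7 j ω) ^ 2) := by
    intro ω ω' h
    simp only
    rw [GG_dep c K0 K7 j ω ω' (h.mono (Nat.le_succ j)), Xij_dep hc hM K0 K7 j ω ω' h]
  rw [EE_upto Al hne (show j + 1 ≤ T by omega) hdep]
  show EE Al 0 j (E1 Al (0 + j) _) ω₀ ≤ 2 * V
  rw [Nat.zero_add, ← EE_cst Al hne j (2 * V) ω₀]
  refine EE_mono Al 0 j fun ω _ => ?_
  have hcard : (0:ℝ) < (Al j ω).card := by exact_mod_cast card_pos.2 (hne j ω)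
  have hB' : (q:ℝ) ^ B ≤ 2 * (Al j ω).card := by exact_mod_cast hB j ω
  unfold E1
  rw [div_le_iff₀ hcard]
  have e1 : ∀ z, ii (GG c K0 K7 j (Function.update ω j z)) = ii (GG c K0 K7 j ω) := fun z => by
    rw [← GG_dep c K0 K7 j ω _ (agr_update j ω z)]
  simp only [e1]
  by_cases hG : GG c K0 K7 j ω
  · rw [ii_true hG]
    simp only [one_mul]
    calc ∑ z ∈ Al j ω, (Xij c K0 K7 j (Function.update ω j z)) ^ 2
        ≤ ∑ z : Blk q B, (Xij c K0 K7 j (Function.update ω j z)) ^ 2 :=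
          sum_le_sum_of_subset_of_nonneg (subset_univ _) fun z _ _ => sq_nonneg _
      _ ≤ (q:ℝ) ^ B * V := hV ω hG
      _ ≤ (2 * (Al j ω).card) * V := mul_le_mul_of_nonneg_right hB' hV0
      _ = 2 * V * (Al j ω).card := by ring
  · rw [ii_false hG]
    simp only [zero_mul, sum_const_zero]
    positivity

/-- number of neighbours -/
lemma card_nb {K7 r β : ℕ} {l : Fin (n+2) → ℕ} (hl : l ∈ IL M B n K7 r β) :
    ((IL M B n K7 r β).filter (fun l' => 1 ≤ dm M B (mxv l l') r)).card ≤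
      (2 * (2 * (n + 1)) + 1) ^ (n + 2) := by
  classical
  refine le_trans (card_le_card ?_) (card_near (n := n) (M * B) (2 * (n+1)) l)
  intro l' hl'
  rw [mem_filter, mem_IL] at hl'
  rw [mem_IL] at hl
  rw [mem_filter, Fintype.mem_piFinset]
  refine ⟨fun a => mem_range.2 (hl'.1.1 a), ?_⟩
  have h1 := sum_max l' l
  have h2 : ∑ a, max (l a) (l' a) + r < M * B := by
    have := hl'.2
    unfold dm mxv at this
    omega
  omega

/-- the accidental part of the bias -/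
noncomputable def SP (c : Flg q M B n) (K0 K7 : ℕ) (ω : Pth q B) : ℝ :=
  ∑ r ∈ range (M * B), ∑ β ∈ range M, ∑ l ∈ IL M B n K7 r β, ∑ l' ∈ IL M B n K7 r β,
    if n + 3 ≤ r ∧ 1 ≤ dm M B (mxv l l') r then PP c K0 ω r l l' else 0

lemma SP_nonneg (c : Flg q M B n) (K0 K7 : ℕ) (ω : Pth q B) : 0 ≤ SP c K0 K7 ω := by
  unfold SP
  refine sum_nonneg fun r _ => sum_nonneg fun β _ => sum_nonneg fun l _ => sum_nonneg fun l' _ => ?_
  split_ifs
  · exact PP_nonneg c K0 ω r l l'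
  · exact le_rfl

lemma EE_SP (Al : ℕ → Pth q B → Finset (Blk q B)) (hB : ∀ j ω, q ^ B ≤ 2 * (Al j ω).card)
    (h8 : 8 ≤ q) {c : Flg q M B n} {K0 K7 : ℕ} (hK7 : 1 ≤ K7) {a : ℝ} (ha : 0 ≤ a)
    (h5 : ∀ (r : ℕ) (l l' : Fin (n+2) → ℕ), ∑ a, mxv l l' a + (n + 2) ≤ M * B →
      ∑ a, mxv l l' a + r ≤ M * B → dm M B l' r ≤ n + 2 → ∀ ω₀,
      EE Al 0 (r * M) (fun ω => PP c K0 ω r l l') ω₀ ≤ a) (ω₀ : Pth q B) :
    EE Al 0 (M * B * M) (SP c K0 K7) ω₀ ≤
      (M * B : ℕ) * (M * ((n + 2 : ℕ) * (B * ((M * B : ℕ) : ℝ) ^ n) *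
        (((2 * (2 * (n + 1)) + 1) ^ (n + 2) : ℕ) * a))) := by
  classical
  have hne := Al_ne (by omega) Al hB
  unfold SP
  rw [EE_sum]
  have hr : ∀ r ∈ range (M * B), EE Al 0 (M * B * M) (fun ω => ∑ β ∈ range M,
      ∑ l ∈ IL M B n K7 r β, ∑ l' ∈ IL M B n K7 r β,
      if n + 3 ≤ r ∧ 1 ≤ dm M B (mxv l l') r then PP c K0 ω r l l' else 0) ω₀ ≤
      M * ((n + 2 : ℕ) * (B * ((M * B : ℕ) : ℝ) ^ n) *
        (((2 * (2 * (n + 1)) + 1) ^ (n + 2) : ℕ) * a)) := by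
    intro r hr
    rw [mem_range] at hr
    rw [EE_sum]
    have hβ : ∀ β ∈ range M, EE Al 0 (M * B * M) (fun ω => ∑ l ∈ IL M B n K7 r β,
        ∑ l' ∈ IL M B n K7 r β,
        if n + 3 ≤ r ∧ 1 ≤ dm M B (mxv l l') r then PP c K0 ω r l l' else 0) ω₀ ≤
        (n + 2 : ℕ) * (B * ((M * B : ℕ) : ℝ) ^ n) *
        (((2 * (2 * (n + 1)) + 1) ^ (n + 2) : ℕ) * a) := by
      intro β _
      rw [EE_sum]
      have hl : ∀ l ∈ IL M B n K7 r β, EE Al 0 (M * B * M) (fun ω =>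
          ∑ l' ∈ IL M B n K7 r β,
          if n + 3 ≤ r ∧ 1 ≤ dm M B (mxv l l') r then PP c K0 ω r l l' else 0) ω₀ ≤
          ((2 * (2 * (n + 1)) + 1) ^ (n + 2) : ℕ) * a := by
        intro l hl
        rw [EE_sum]
        have hl' : ∀ l' ∈ IL M B n K7 r β, EE Al 0 (M * B * M) (fun ω =>
            if n + 3 ≤ r ∧ 1 ≤ dm M B (mxv l l') r then PP c K0 ω r l l' else 0) ω₀ ≤
            if 1 ≤ dm M B (mxv l l') r then a else 0 := by
          intro l' hl'
          by_cases h1 : 1 ≤ dm M B (mxv l l') r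
          · rw [if_pos h1]
            by_cases h2 : n + 3 ≤ r
            · simp only [h1, h2, and_self, if_true]
              have hdep : DepLT (r * M) (fun ω : Pth q B => PP c K0 ω r l l') :=
                fun ω ω' h => PP_agr c h l l'
              rw [EE_upto Al hne (show r * M ≤ M * B * M from Nat.mul_le_mul_right _ hr.le) hdep]
              have h3 : ∑ a, mxv l l' a + r < M * B := by
                unfold dm at h1; omega
              rw [mem_IL] at hl'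
              exact h5 r l l' (by omega) (by omega) (by unfold dm; omega) ω₀
            · simp only [h2, false_and, if_false]
              rw [EE_cst Al hne]
              exact ha
          · simp only [h1, and_false, if_false]
            rw [EE_cst Al hne]
        refine (sum_le_sum hl').trans ?_
        rw [← sum_filter, sum_const, nsmul_eq_mul]
        apply mul_le_mul_of_nonneg_right _ ha
        exact_mod_cast card_nb hl
      refine (sum_le_sum hl).trans ?_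
      rw [sum_const, nsmul_eq_mul]
      apply mul_le_mul_of_nonneg_right _ (by positivity)
      have := card_IL (M := M) (B := B) (n := n) (K7 := K7) (r := r) (β := β) hK7
      exact_mod_cast this
    refine (sum_le_sum hβ).trans ?_
    rw [sum_const, card_range, nsmul_eq_mul]
  refine (sum_le_sum hr).trans ?_
  rw [sum_const, card_range, nsmul_eq_mul]

/-- the boundary cost -/
noncomputable def SB (c : Flg q M B n) (K7 : ℕ) (ω : Pth q B) : ℝ :=
  ∑ r ∈ range (M * B), ∑ l ∈ BdS M B n K7 r, RR c ω l r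

lemma SB_nonneg (c : Flg q M B n) (K7 : ℕ) (ω : Pth q B) : 0 ≤ SB c K7 ω :=
  sum_nonneg fun r _ => sum_nonneg fun l _ => RR_nonneg c ω l r

lemma BdS_sub {K7 r : ℕ} : BdS M B n K7 r ⊆ Mid M B n r := by
  unfold BdS Bdr
  split_ifs
  · exact Subset.refl _
  · exact filter_subset _ _

lemma EE_SB (Al : ℕ → Pth q B → Finset (Blk q B)) {c : Flg q M B n} {K7 : ℕ} {a : ℝ}
    (h8b : ∀ (l : Fin (n+2) → ℕ) (r : ℕ), r < M * B → dm M B l r ≤ n + 2 → ∀ ω₀,
      EE Al 0 (M * B * M) (fun ω => RR c ω l r) ω₀ ≤ a) (ha : 0 ≤ a) (ω₀ : Pth q B) :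
    EE Al 0 (M * B * M) (SB c K7) ω₀ ≤
      (((n + 3) * ((n + 2) * (M * B) ^ (n+1)) +
        (M * B) * ((n + 2) * (M * K7 * (M * B) ^ n)) : ℕ) : ℝ) * a := by
  classical
  unfold SB
  rw [EE_sum]
  have h1 : ∀ r ∈ range (M * B), EE Al 0 (M * B * M) (fun ω => ∑ l ∈ BdS M B n K7 r, RR c ω l r) ω₀
      ≤ ((BdS M B n K7 r).card : ℝ) * a := by
    intro r hr
    rw [mem_range] at hr
    rw [EE_sum, ← nsmul_eq_mul, ← sum_const]
    refine sum_le_sum fun l hl => ?_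
    have h2 := mem_Mid.1 (BdS_sub hl)
    exact h8b l r hr (by unfold dm; omega) ω₀
  refine (sum_le_sum h1).trans ?_
  rw [← sum_mul]
  apply mul_le_mul_of_nonneg_right _ ha
  exact_mod_cast card_BdS M B n K7

end EEb

end Pool.Agent.Y258
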