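import Pool.Agent.Y258.SD.Core4
import Pool.Agent.H470D4.Net

set_option autoImplicit false
set_option linter.unusedSectionVars false

/-!
# Application of the engine
-/

namespace Pool.Agent.Y258

open Finset Pool.Agent.H470D4
open Pool.Agent.H935R2.PS (La uu nn dl mx Suit)

section app
variable {q M B n : ℕ} [Fact q.Prime]

/-- the index set of the corners -/
abbrev Dlt (q M B n : ℕ) := (Fin (n + 2) → Fin (M * B) → ZMod q) × (Fin (M * B) → ZMod q) ×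
  (Fin (M * B) → ZMod q)

lemma card_Dlt (q M B n : ℕ) [Fact q.Prime] :
    Fintype.card (Dlt q M B n) = q ^ ((n + 4) * (M * B)) := by
  simp only [Fintype.card_prod, Fintype.card_fun, Fintype.card_fin, ZMod.card]
  rw [← pow_mul, ← pow_add, ← pow_add]
  congr 1
  ring

/-- the numerical bound of the second moment -/
noncomputable def VV0 (q M B n K0 C14 : ℕ) : ℝ :=
  C14 * (La q : ℝ) ^ (2 * n + 6) * (((n + 2 : ℕ) * (B * ((M * B : ℕ) : ℝ) ^ n)) ^ 2 +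
    ((n + 2 : ℕ) * (B * ((M * B : ℕ) : ℝ) ^ n)) * 2 ^ K0)

/-- **The path.** -/
theorem exists_good_path (h1 : St_C1) (h2 : St_C2) (h3 : St_C3) (h4 : St_C4) (h10 : St_C10)
    (h17 : St_C17) {C11 C12 C13 C14 K0 : ℕ} {c : Flg q M B n} (hc : IsFlags c)
    (h8 : 8 ≤ q) (hM : 0 < M)
    (hAl : ∀ (j : ℕ) (ω : Pth q B), q ^ B ≤ 2 * (AlS c K0 (2*n+6) j ω).card)
    (hsm : 48 * (4:ℝ) ^ (n + 4) * ((M * B + 1 : ℕ) : ℝ) ^ (2 * n + 6) ≤ q)
    {a5 a8 : ℝ} (ha5 : 0 ≤ a5) (ha8 : 0 ≤ a8)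
    (h5 : ∀ (Al : ℕ → Pth q B → Finset (Blk q B)), (∀ j ω, q ^ B ≤ 2 * (Al j ω).card) →
      ∀ (r : ℕ) (l l' : Fin (n+2) → ℕ), ∑ a, mxv l l' a + (n + 2) ≤ M * B →
      ∑ a, mxv l l' a + r ≤ M * B → dm M B l' r ≤ n + 2 → ∀ ω₀,
      EE Al 0 (r * M) (fun ω => PP c K0 ω r l l') ω₀ ≤ a5)
    (h8b : ∀ (Al : ℕ → Pth q B → Finset (Blk q B)), (∀ j ω, q ^ B ≤ 2 * (Al j ω).card) →
      ∀ (l : Fin (n+2) → ℕ) (r : ℕ), r < M * B → dm M B l r ≤ n + 2 → ∀ ω₀,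
      EE Al 0 (M * B * M) (fun ω => RR c ω l r) ω₀ ≤ a8)
    (h11 : ∀ (ω : Pth q B) (r : ℕ) (b : Fin M) (l : Fin (n+2) → ℕ), l ∈ IL M B n (2*n+6) r b →
      Exc c ω r → ∀ (X : Fin (n+2) → ℕ → ZMod q) (Y t : ℕ → ZMod q),
      |∑ z : Blk q B, TT c (cD M B X Y) t (Function.update ω (r * M + (M - 1 - b)) z) r l *
          ii (Gd c K0 (Function.update ω (r * M + (M - 1 - b)) z) l r)| ≤
        (q:ℝ) ^ B * (C11 * (La q : ℝ) ^ (n + 1) * (uu q : ℝ) ^ 2 + PP c K0 ω r l l +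
          ii (NCv c X Y t ω r b l) * (C11 * (La q : ℝ) ^ (n + 3))))
    (h12 : ∀ (ω : Pth q B) (r : ℕ) (b : Fin M) (l l' : Fin (n+2) → ℕ), l ∈ IL M B n (2*n+6) r b →
      l' ∈ IL M B n (2*n+6) r b → l ≠ l' → 1 ≤ dm M B (mxv l l') r → Exc c ω r →
      ∑ z : Blk q B, RR c (Function.update ω (r * M + (M - 1 - b)) z) l r *
          (ii (Gd c K0 (Function.update ω (r * M + (M - 1 - b)) z) l r) *
           ii (¬ Gd c K0 (Function.update ω (r * M + (M - 1 - b)) z) l' r)) ≤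
        (q:ℝ) ^ B * (C12 * (La q : ℝ) ^ (n + 1) + PP c K0 ω r l l'))
    (h13 : ∀ (ω : Pth q B) (r : ℕ) (b : Fin M) (l l' : Fin (n+2) → ℕ), l ∈ IL M B n (2*n+6) r b →
      l' ∈ IL M B n (2*n+6) r b → dm M B (mxv l l') r = 0 → Exc c ω r → PairG c (2*n+6) ω r →
      ∑ z : Blk q B, RR c (Function.update ω (r * M + (M - 1 - b)) z) l r *
           ii (¬ Gd c K0 (Function.update ω (r * M + (M - 1 - b)) z) l' r) ≤
        (q:ℝ) ^ B * (C13 * (La q : ℝ) ^ (2 * n + 5) / 2 ^ K0))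
    (h14 : ∀ (ω : Pth q B) (r : ℕ) (b : Fin M), Exc c ω r → OldG c K0 (2*n+6) ω r →
      PairG c (2*n+6) ω r →
      ∑ z : Blk q B, (∑ l ∈ IL M B n (2*n+6) r b,
          RR c (Function.update ω (r * M + (M - 1 - b)) z) l r *
          ii (Gd c K0 (Function.update ω (r * M + (M - 1 - b)) z) l r)) ^ 2 ≤
        (q:ℝ) ^ B * (C14 * (La q : ℝ) ^ (2 * n + 6) *
          (((IL M B n (2*n+6) r b).card : ℝ) ^ 2 + (IL M B n (2*n+6) r b).card * 2 ^ K0)))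
    {θ : ℝ} (hθ : 0 < θ) :
    ∃ ω : Pth q B, (∀ r ≤ M * B, Exc c ω r) ∧ NoRel c ω ∧
      (∀ j < M * B * M, ω j ∈ AlS c K0 (2*n+6) j ω) ∧
      (∀ j < M * B * M, n + 3 ≤ j / M → GG c K0 (2*n+6) j ω) ∧
      SB c (2*n+6) ω ≤ 48 * ((((n + 3) * ((n + 2) * (M * B) ^ (n+1)) +
        (M * B) * ((n + 2) * (M * (2*n+6) * (M * B) ^ n)) : ℕ) : ℝ) * a8 + 1) ∧
      SP c K0 (2*n+6) ω ≤ 48 * ((M * B : ℕ) * (M * ((n + 2 : ℕ) * (B * ((M * B : ℕ) : ℝ) ^ n) *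
        (((2 * (2 * (n + 1)) + 1) ^ (n + 2) : ℕ) * a5))) + 1) ∧
      ∀ δ : Dlt q M B n, |∑ j ∈ range (M * B * M), ii (GG c K0 (2*n+6) j ω) *
          Yj c K0 (2*n+6) (fun a => ex (δ.1 a)) (ex δ.2.1) (ex δ.2.2) j ω| ≤
        ∑ j ∈ range (M * B * M), ii (GG c K0 (2*n+6) j ω) *
          (2 * bb c K0 (2*n+6) C11 C12 C13 (fun a => ex (δ.1 a)) (ex δ.2.1) (ex δ.2.2)
            (j / M) (M - 1 - j % M) ω) +
          θ * (4 * ((M * B * M : ℕ) * VV0 q M B n K0 C14) +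
            48 * ((M * B * M : ℕ) * (2 * VV0 q M B n K0 C14) + 1)) +
          Real.log (8 * (q:ℝ) ^ ((n + 4) * (M * B))) / θ := by
  classical
  have hq0 : (0:ℝ) < q := by exact_mod_cast (by omega : 0 < q)
  have hqB : (0:ℝ) < (q:ℝ) ^ B := by positivity
  obtain ⟨f1, hf1, hE1, hc1⟩ := h1 n q h8 M B c hc
  obtain ⟨f2, hf2, hE2, hc2⟩ := h2 n q h8 M B c hc
  obtain ⟨f3, hf3, hE3, hc3⟩ := h3 n q h8 M B c hc (2*n+6) le_rfl
  obtain ⟨T, hT⟩ : ∃ T, T = M * B * M := ⟨_, rfl⟩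
  obtain ⟨A, hA⟩ : ∃ A : ℕ → Pth q B → Finset (Blk q B), A = AlS c K0 (2*n+6) := ⟨_, rfl⟩
  have hB' : ∀ j ω, q ^ B ≤ 2 * (A j ω).card := by rw [hA]; exact hAl
  have hne := Al_ne (by omega) A hB'
  obtain ⟨V, hV⟩ : ∃ V, V = VV0 q M B n K0 C14 := ⟨_, rfl⟩
  have hV0 : 0 ≤ V := by rw [hV]; unfold VV0; positivity
  -- second moment
  have hsec : ∀ j < T, ∀ ω, GG c K0 (2*n+6) j ω →
      ∑ z : Blk q B, (Xij c K0 (2*n+6) j (Function.update ω j z)) ^ 2 ≤ (q:ℝ) ^ B * V := by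
    intro j hj ω hG
    have hmod := Nat.mod_lt j hM
    have hdiv := Nat.div_add_mod j M
    obtain ⟨hG1, hE, hO, hP⟩ := hG
    have hb : M - 1 - j % M < M := by omega
    have h6 := h14 ω (j / M) ⟨M - 1 - j % M, hb⟩ hE hO hP
    have hjb : j / M * M + (M - 1 - (M - 1 - j % M)) = j := (jr_eq hM).symm
    simp only [hjb] at h6
    refine h6.trans ?_
    apply mul_le_mul_of_nonneg_left _ hqB.le
    rw [hV]
    unfold VV0
    have h7 : ((IL M B n (2*n+6) (j / M) (M - 1 - j % M)).card : ℝ) ≤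
        (n + 2 : ℕ) * (B * ((M * B : ℕ) : ℝ) ^ n) := by
      have := card_IL (M := M) (B := B) (n := n) (K7 := 2*n+6) (r := j / M)
        (β := M - 1 - j % M) (by omega)
      exact_mod_cast this
    have h7' : (0:ℝ) ≤ ((IL M B n (2*n+6) (j / M) (M - 1 - j % M)).card : ℝ) := Nat.cast_nonneg _
    gcongr
  -- the potential
  obtain ⟨A4, hA4⟩ : ∃ A4 : ℝ, A4 = 48 * ((T : ℝ) * (2 * V) + 1) := ⟨_, rfl⟩
  obtain ⟨A5, hA5⟩ : ∃ A5 : ℝ, A5 = 48 * ((((n + 3) * ((n + 2) * (M * B) ^ (n+1)) +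
        (M * B) * ((n + 2) * (M * (2*n+6) * (M * B) ^ n)) : ℕ) : ℝ) * a8 + 1) := ⟨_, rfl⟩
  obtain ⟨A6, hA6⟩ : ∃ A6 : ℝ, A6 = 48 * ((M * B : ℕ) * (M * ((n + 2 : ℕ) *
      (B * ((M * B : ℕ) : ℝ) ^ n) * (((2 * (2 * (n + 1)) + 1) ^ (n + 2) : ℕ) * a5))) + 1) :=
    ⟨_, rfl⟩
  have hA4p : 0 < A4 := by rw [hA4]; positivity
  have hA5p : 0 < A5 := by rw [hA5]; positivity
  have hA6p : 0 < A6 := by rw [hA6]; positivity
  set S4 : Pth q B → ℝ := fun ω => ∑ j ∈ range T, ii (GG c K0 (2*n+6) j ω) *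
    (Xij c K0 (2*n+6) j ω) ^ 2 with hS4
  have hS40 : ∀ ω, 0 ≤ S4 ω := fun ω => sum_nonneg fun j _ => mul_nonneg (ii_nonneg _) (sq_nonneg _)
  set P : Pth q B → ℝ := fun ω => (f1 ω + f2 ω + f3 ω) + ((1 / A4) * S4 ω +
    ((1 / A5) * SB c (2*n+6) ω + (1 / A6) * SP c K0 (2*n+6) ω)) with hPd
  have hP0 : ∀ ω, 0 ≤ P ω := by
    intro ω
    have := hf1 ω; have := hf2 ω; have := hf3 ω; have := hS40 ω
    have := SB_nonneg c (2*n+6) ω; have := SP_nonneg c K0 (2*n+6) ω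
    rw [hPd]
    positivity
  have hPE : ∀ ω₀, EE A 0 T P ω₀ ≤ 1 / 4 := by
    intro ω₀
    rw [hPd, EE_add_fun, EE_add_fun, EE_add_fun, EE_add_fun, EE_add_fun, EE_const_mul,
      EE_const_mul, EE_const_mul]
    have e1 := hE1 A hB' ω₀
    have e2 := hE2 A hB' ω₀
    have e3 := hE3 A hB' ω₀
    rw [← hT] at e1 e2 e3
    have hm1 : (1:ℝ) ≤ ((M * B + 1 : ℕ) : ℝ) := by
      have : 1 ≤ M * B + 1 := by omega
      exact_mod_cast this
    have hpw : ((M * B + 1 : ℕ) : ℝ) ^ (n + 3) ≤ ((M * B + 1 : ℕ) : ℝ) ^ (2 * n + 6) :=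
      pow_le_pow_right₀ hm1 (by omega)
    have hpw0 : (0:ℝ) ≤ ((M * B + 1 : ℕ) : ℝ) ^ (n + 3) := by positivity
    have h4n : (4:ℝ) ≤ 4 ^ (n + 4) := by
      calc (4:ℝ) = 4 ^ 1 := (pow_one _).symm
        _ ≤ 4 ^ (n + 4) := pow_le_pow_right₀ (by norm_num) (by omega)
    have h2n : (2:ℝ) ^ (n + 3) ≤ 4 ^ (n + 4) := by
      calc (2:ℝ) ^ (n + 3) ≤ 4 ^ (n + 3) := pow_le_pow_left₀ (by norm_num) (by norm_num) _
        _ ≤ 4 ^ (n + 4) := pow_le_pow_right₀ (by norm_num) (by omega)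
    have b3 : EE A 0 T f3 ω₀ ≤ 1 / 48 := by
      refine e3.trans ?_
      rw [div_le_div_iff₀ hq0 (by norm_num)]
      linarith
    have b1 : EE A 0 T f1 ω₀ ≤ 1 / 48 := by
      refine e1.trans ?_
      rw [div_le_div_iff₀ hq0 (by norm_num)]
      have : 4 * ((M * B + 1 : ℕ) : ℝ) ^ (n + 3) ≤
          4 ^ (n + 4) * ((M * B + 1 : ℕ) : ℝ) ^ (2 * n + 6) :=
        mul_le_mul h4n hpw hpw0 (by positivity)
      linarith
    have b2 : EE A 0 T f2 ω₀ ≤ 1 / 48 := by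
      refine e2.trans ?_
      rw [div_le_div_iff₀ hq0 (by norm_num)]
      have : 2 ^ (n + 3) * ((M * B + 1 : ℕ) : ℝ) ^ (n + 3) ≤
          4 ^ (n + 4) * ((M * B + 1 : ℕ) : ℝ) ^ (2 * n + 6) :=
        mul_le_mul h2n hpw hpw0 (by positivity)
      linarith
    have b4 : (1 / A4) * EE A 0 T S4 ω₀ ≤ 1 / 48 := by
      have e4 : EE A 0 T S4 ω₀ ≤ (T:ℝ) * (2 * V) := by
        rw [hS4, EE_sum]
        calc ∑ j ∈ range T, EE A 0 T (fun ω => ii (GG c K0 (2*n+6) j ω) *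
              (Xij c K0 (2*n+6) j ω) ^ 2) ω₀ ≤ ∑ _j ∈ range T, 2 * V :=
              sum_le_sum fun j hj => EE_Xi A hB' (by omega) hc hM (mem_range.1 hj) hV0
                (hsec j (mem_range.1 hj)) ω₀
          _ = (T:ℝ) * (2 * V) := by rw [sum_const, card_range, nsmul_eq_mul]
      rw [div_mul_eq_mul_div, one_mul, div_le_div_iff₀ hA4p (by norm_num)]
      rw [hA4]
      linarith
    have b5 : (1 / A5) * EE A 0 T (SB c (2*n+6)) ω₀ ≤ 1 / 48 := by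
      have e5 := EE_SB (K7 := 2*n+6) A (h8b A hB') ha8 ω₀
      rw [← hT] at e5
      rw [div_mul_eq_mul_div, one_mul, div_le_div_iff₀ hA5p (by norm_num)]
      rw [hA5]
      linarith
    have b6 : (1 / A6) * EE A 0 T (SP c K0 (2*n+6)) ω₀ ≤ 1 / 48 := by
      have e6 := EE_SP (K7 := 2*n+6) A hB' h8 (by omega) ha5 (h5 A hB') ω₀
      rw [← hT] at e6
      rw [div_mul_eq_mul_div, one_mul, div_le_div_iff₀ hA6p (by norm_num)]
      rw [hA6]
      linarith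
    linarith
  -- the engine
  have hcardZ : (Fintype.card (Blk q B) : ℝ) = (q:ℝ) ^ B := by
    rw [Fintype.card_fun, ZMod.card, Fintype.card_fin]; push_cast; rfl
  have hjT : ∀ j < T, j / M < M * B := fun j hj =>
    Nat.div_lt_of_lt_mul (by rw [mul_comm M (M * B), ← hT]; exact hj)
  obtain ⟨ω, hω1, hω2, hω3⟩ := h17 (Blk q B) A T ((q:ℝ) ^ B) hcardZ
    (fun j ω => by exact_mod_cast hB' j ω) hqB (by rw [hA]; exact fun j => AlS_dep hc hM K0 _ j)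
    (Dlt q M B n) θ hθ
    (fun δ j ω => if j < T then
      Yj c K0 (2*n+6) (fun a => ex (δ.1 a)) (ex δ.2.1) (ex δ.2.2) j ω else 0)
    (fun j ω => Xij c K0 (2*n+6) j ω)
    (fun j ω => GG c K0 (2*n+6) j ω)
    (fun δ j ω => bb c K0 (2*n+6) C11 C12 C13 (fun a => ex (δ.1 a)) (ex δ.2.1) (ex δ.2.2)
            (j / M) (M - 1 - j % M) ω)
    (fun _ _ => V) P
    (fun δ j => by
      intro ω ω' h
      simp only
      rw [Yj_dep hc hM K0 _ _ _ _ j ω ω' h])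
    (fun j => Xij_dep hc hM K0 _ j)
    (fun j => GG_dep c K0 _ j)
    (fun δ j => bb_dep hM K0 _ C11 C12 C13 _ _ _ j)
    (fun j => fun _ _ _ => rfl)
    (by
      intro δ j ω
      by_cases hj : j < T
      · simp only [hj, if_true]
        unfold Yj
        by_cases hG : GG c K0 (2*n+6) j ω
        · rw [ii_true hG, one_mul]
          unfold Y0 Xij
          refine (abs_sum_le_sum_abs _ _).trans (sum_le_sum fun l _ => ?_)
          rw [abs_mul, abs_of_nonneg (ii_nonneg _)]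
          exact mul_le_mul_of_nonneg_right
            ((h10 n q M B c ω (j / M) l (hjT j hj) hG.2.1 _ _ _).1) (ii_nonneg _)
        · rw [ii_false hG, zero_mul, abs_zero]
          exact Xij_nonneg c K0 _ j ω
      · simp only [hj, if_false, abs_zero]
        exact Xij_nonneg c K0 _ j ω)
    (fun δ j ω => bb_nonneg c K0 _ C11 C12 C13 _ _ _ _ _ ω)
    (fun _ _ => hV0)
    (fun j hj ω hG => hsec j hj ω hG)
    (by
      intro δ j hj ω hG
      simp only [hj, if_true]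
      rw [hA]
      exact mean_bound hc h10 h11 h12 h13 _ _ _ (by rw [← hT]; exact hj) ω hG)
    hP0 hPE
  -- consequences
  have hω2' : (f1 ω + f2 ω + f3 ω) + ((1 / A4) * S4 ω +
    ((1 / A5) * SB c (2*n+6) ω + (1 / A6) * SP c K0 (2*n+6) ω)) < 1 := hω2
  have g1 := hf1 ω
  have g2 := hf2 ω
  have g3 := hf3 ω
  have g4 : 0 ≤ (1 / A4) * S4 ω := mul_nonneg (by positivity) (hS40 ω)
  have g5 : 0 ≤ (1 / A5) * SB c (2*n+6) ω := mul_nonneg (by positivity) (SB_nonneg _ _ _)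
  have g6 : 0 ≤ (1 / A6) * SP c K0 (2*n+6) ω := mul_nonneg (by positivity) (SP_nonneg _ _ _ _)
  have hEx := hc1 ω (by linarith)
  have hNR := hc2 ω (by linarith)
  have hPG := hc3 ω (by linarith) hEx
  rw [hA] at hω1
  have hOG := h4 n q M B c hc K0 (2*n+6) ω hEx hNR (by rw [← hT]; exact hω1)
  have s4 : S4 ω ≤ A4 := by
    have : (1 / A4) * S4 ω ≤ 1 := by linarith
    rwa [div_mul_eq_mul_div, one_mul, div_le_one hA4p] at this
  have s5 : SB c (2*n+6) ω ≤ A5 := by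
    have : (1 / A5) * SB c (2*n+6) ω ≤ 1 := by linarith
    rwa [div_mul_eq_mul_div, one_mul, div_le_one hA5p] at this
  have s6 : SP c K0 (2*n+6) ω ≤ A6 := by
    have : (1 / A6) * SP c K0 (2*n+6) ω ≤ 1 := by linarith
    rwa [div_mul_eq_mul_div, one_mul, div_le_one hA6p] at this
  refine ⟨ω, hEx, hNR, by rw [← hT]; exact hω1, ?_, by rw [← hA5]; exact s5,
    by rw [← hA6]; exact s6, ?_⟩
  · intro j hj hr
    rw [← hT] at hj
    have := hjT j hj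
    exact ⟨hr, hEx _ this.le, hOG _ this (by omega), hPG _ this hr⟩
  · intro δ
    have h7 := hω3 δ
    have e1 : ∑ j ∈ range T, ii (GG c K0 (2*n+6) j ω) * (if j < T then
        Yj c K0 (2*n+6) (fun a => ex (δ.1 a)) (ex δ.2.1) (ex δ.2.2) j ω else 0) =
        ∑ j ∈ range T, ii (GG c K0 (2*n+6) j ω) *
        Yj c K0 (2*n+6) (fun a => ex (δ.1 a)) (ex δ.2.1) (ex δ.2.2) j ω :=
      sum_congr rfl fun j hj => by rw [if_pos (mem_range.1 hj)]
    rw [e1] at h7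
    rw [← hT, ← hV]
    refine h7.trans ?_
    have hcd : ((Fintype.card (Dlt q M B n) : ℕ) : ℝ) = (q:ℝ) ^ ((n + 4) * (M * B)) := by
      rw [card_Dlt]; push_cast; rfl
    rw [hcd]
    have e2 : ∑ j ∈ range T, ii (GG c K0 (2*n+6) j ω) * (2 * bb c K0 (2*n+6) C11 C12 C13
          (fun a => ex (δ.1 a)) (ex δ.2.1) (ex δ.2.2) (j / M) (M - 1 - j % M) ω +
          4 * θ * V + θ * Xij c K0 (2*n+6) j ω ^ 2) ≤
        ∑ j ∈ range T, ii (GG c K0 (2*n+6) j ω) * (2 * bb c K0 (2*n+6) C11 C12 C13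
          (fun a => ex (δ.1 a)) (ex δ.2.1) (ex δ.2.2) (j / M) (M - 1 - j % M) ω) +
        θ * (4 * ((T:ℕ) * V) + 48 * ((T:ℕ) * (2 * V) + 1)) := by
      have e3 : ∑ j ∈ range T, ii (GG c K0 (2*n+6) j ω) * (4 * θ * V) ≤ θ * (4 * (T * V)) := by
        calc ∑ j ∈ range T, ii (GG c K0 (2*n+6) j ω) * (4 * θ * V) ≤
            ∑ _j ∈ range T, 1 * (4 * θ * V) := sum_le_sum fun j _ =>
              mul_le_mul_of_nonneg_right (ii_le_one _) (by positivity)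
          _ = θ * (4 * (T * V)) := by
              rw [sum_const, card_range, nsmul_eq_mul]; ring
      have e4 : ∑ j ∈ range T, ii (GG c K0 (2*n+6) j ω) * (θ * Xij c K0 (2*n+6) j ω ^ 2) =
          θ * S4 ω := by
        rw [hS4]
        simp only
        rw [mul_sum]
        exact sum_congr rfl fun j _ => by ring
      have e5 : θ * S4 ω ≤ θ * (48 * ((T:ℕ) * (2 * V) + 1)) := by
        rw [← hA4]
        exact mul_le_mul_of_nonneg_left s4 hθ.le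
      simp only [mul_add, sum_add_distrib]
      simp only [mul_add] at e3 e4 e5
      linarith
    linarith

end app

end Pool.Agent.Y258
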