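import Mathlib

set_option autoImplicit false

/-!
# Numerical lemmas for St_C18
-/

namespace Pool.Agent.Y258.Num

/-- boundary -/
lemma n2 {n : ℕ} {μ Mr L C8 t1 t2 S : ℝ} (hμ : 1 ≤ μ) (hM : 1 ≤ Mr) (hL : 1 ≤ L) (hC : 0 ≤ C8)
    (ht2 : t2 = μ ^ (n + 1) * Mr * L ^ (n + 3)) (h1t : 1 ≤ t1)
    (hS : S ≤ 48 * ((((n:ℝ) + 3) * ((n + 2) * μ ^ (n + 1)) +
      μ * ((n + 2) * (Mr * (2 * n + 6) * μ ^ n))) * (C8 * L ^ (n + 3)) + 1)) :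
    S ≤ 48 * ((((n:ℝ) + 3) * (n + 2) + (n + 2) * (2 * n + 6)) * C8) * t2 + 48 * t1 := by
  have h0 : 0 < μ := by linarith
  have h0' : 0 < Mr := by linarith
  have h0'' : 0 < L := by linarith
  have e3 : (((n:ℝ) + 3) * ((n + 2) * μ ^ (n + 1)) + μ * ((n + 2) * (Mr * (2 * n + 6) * μ ^ n))) *
      (C8 * L ^ (n + 3)) ≤ (((n:ℝ) + 3) * (n + 2) + (n + 2) * (2 * n + 6)) * C8 * t2 := by
    calc (((n:ℝ) + 3) * ((n + 2) * μ ^ (n + 1)) + μ * ((n + 2) * (Mr * (2 * n + 6) * μ ^ n))) *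
        (C8 * L ^ (n + 3)) ≤ (((n:ℝ) + 3) * ((n + 2) * (μ ^ (n + 1) * Mr)) +
          μ * ((n + 2) * (Mr * (2 * n + 6) * μ ^ n))) * (C8 * L ^ (n + 3)) := by
          have : μ ^ (n + 1) ≤ μ ^ (n + 1) * Mr := le_mul_of_one_le_right (by positivity) hM
          gcongr
      _ = (((n:ℝ) + 3) * (n + 2) + (n + 2) * (2 * n + 6)) * C8 * t2 := by rw [ht2]; ring
  linarith

lemma n3 {n : ℕ} {μ Mr Br L K C5 NB t1 S : ℝ} (hμ : 1 ≤ μ) (hM : 1 ≤ Mr) (hB : 1 ≤ Br)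
    (hμMB : μ = Mr * Br) (hC : 0 ≤ C5) (hN : 0 ≤ NB)
    (hLK : L ^ (2 * n + 5) / K ≤ L ^ (n + 1)) (hb1 : μ ^ (n + 2) * L ^ (n + 1) ≤ t1)
    (h1t : 1 ≤ t1)
    (hS : S ≤ 48 * (μ * (Mr * (((n:ℝ) + 2) * (Br * μ ^ n) *
      (NB * (C5 * L ^ (2 * n + 5) / K)))) + 1)) :
    S ≤ 48 * (((n:ℝ) + 2) * NB * C5 + 1) * t1 := by
  have h0 : 0 < μ := by linarith
  have e1 : μ * (Mr * (((n:ℝ) + 2) * (Br * μ ^ n) * (NB * (C5 * L ^ (2 * n + 5) / K)))) ≤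
      ((n:ℝ) + 2) * NB * C5 * t1 := by
    calc μ * (Mr * (((n:ℝ) + 2) * (Br * μ ^ n) * (NB * (C5 * L ^ (2 * n + 5) / K))))
        = ((n:ℝ) + 2) * NB * C5 * (μ * (Mr * Br) * μ ^ n * (L ^ (2 * n + 5) / K)) := by ring
      _ = ((n:ℝ) + 2) * NB * C5 * (μ ^ (n + 2) * (L ^ (2 * n + 5) / K)) := by
          rw [← hμMB]; ring
      _ ≤ ((n:ℝ) + 2) * NB * C5 * (μ ^ (n + 2) * L ^ (n + 1)) := by gcongr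
      _ ≤ ((n:ℝ) + 2) * NB * C5 * t1 := by gcongr
  linarith

lemma n4 {n : ℕ} {μ Mr Br L U K C11 C12 C13 NB t1 : ℝ} (hμ : 1 ≤ μ)
    (hμMB : μ = Mr * Br) (hC11 : 0 ≤ C11) (hC12 : 0 ≤ C12) (hC13 : 0 ≤ C13) (hN : 0 ≤ NB)
    (ht1 : t1 = μ ^ (n + 2) * L ^ (n + 1) * U ^ 2)
    (hBLK : Br * μ ^ n * (L ^ (2 * n + 5) / K) ≤ L ^ (n + 1))
    (hb1 : μ ^ (n + 2) * L ^ (n + 1) ≤ t1) :
    μ * (Mr * (((n:ℝ) + 2) * (Br * μ ^ n) *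
        (C11 * L ^ (n + 1) * U ^ 2 + NB * (C12 * L ^ (n + 1)) +
        ((n:ℝ) + 2) * (Br * μ ^ n) * (C13 * L ^ (2 * n + 5) / K)))) ≤
      ((n:ℝ) + 2) * (C11 + NB * C12 + ((n:ℝ) + 2) * C13) * t1 := by
  have h0 : 0 < μ := by linarith
  have e1 : μ * (Mr * (((n:ℝ) + 2) * (Br * μ ^ n) *
      (C11 * L ^ (n + 1) * U ^ 2 + NB * (C12 * L ^ (n + 1)) +
      ((n:ℝ) + 2) * (Br * μ ^ n) * (C13 * L ^ (2 * n + 5) / K)))) =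
      ((n:ℝ) + 2) * (C11 * (μ ^ (n + 2) * L ^ (n + 1) * U ^ 2) +
        NB * C12 * (μ ^ (n + 2) * L ^ (n + 1)) +
        ((n:ℝ) + 2) * C13 * (μ ^ (n + 2) * (Br * μ ^ n * (L ^ (2 * n + 5) / K)))) := by
    have : μ ^ (n + 2) = μ * (Mr * Br) * μ ^ n := by rw [← hμMB]; ring
    rw [this]; ring
  rw [e1]
  have e2 : μ ^ (n + 2) * (Br * μ ^ n * (L ^ (2 * n + 5) / K)) ≤ t1 :=
    (mul_le_mul_of_nonneg_left hBLK (by positivity)).trans hb1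
  calc ((n:ℝ) + 2) * (C11 * (μ ^ (n + 2) * L ^ (n + 1) * U ^ 2) +
        NB * C12 * (μ ^ (n + 2) * L ^ (n + 1)) +
        ((n:ℝ) + 2) * C13 * (μ ^ (n + 2) * (Br * μ ^ n * (L ^ (2 * n + 5) / K))))
      ≤ ((n:ℝ) + 2) * (C11 * t1 + NB * C12 * t1 + ((n:ℝ) + 2) * C13 * t1) := by
        rw [← ht1]
        gcongr
    _ = _ := by ring

lemma n5 {n : ℕ} {μ Mr L C11 t2 w : ℝ} (hM : 1 ≤ Mr) (hL : 1 ≤ L)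
    (hC : 0 ≤ C11) (ht2 : t2 = μ ^ (n + 1) * Mr * L ^ (n + 3)) (hw : w ≤ 2 ^ (n + 1) * μ ^ (n + 1)) :
    ((n:ℝ) + 2) ^ 2 * (Mr * w) * (C11 * L ^ (n + 3)) ≤
      ((n:ℝ) + 2) ^ 2 * 2 ^ (n + 1) * C11 * t2 := by
  calc ((n:ℝ) + 2) ^ 2 * (Mr * w) * (C11 * L ^ (n + 3))
      ≤ ((n:ℝ) + 2) ^ 2 * (Mr * (2 ^ (n + 1) * μ ^ (n + 1))) * (C11 * L ^ (n + 3)) := by gcongr
    _ = ((n:ℝ) + 2) ^ 2 * 2 ^ (n + 1) * C11 * t2 := by rw [ht2]; ring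

lemma n6a {n : ℕ} {μ Br L K C14 : ℝ} (hμ : 1 ≤ μ) (hB : 1 ≤ Br) (hL : 1 ≤ L) (hK : 0 < K)
    (hC : 0 ≤ C14) :
    C14 * L ^ (2 * n + 6) * ((((n:ℝ) + 2) * (Br * μ ^ n)) ^ 2 +
      ((n:ℝ) + 2) * (Br * μ ^ n) * K) ≤ C14 * ((n:ℝ) + 2) ^ 2 *
        (L ^ (2 * n + 6) * (Br ^ 2 * μ ^ (2 * n) + Br * μ ^ n * K)) := by
  have hn : (0:ℝ) ≤ n := Nat.cast_nonneg n
  have e2 : ((n:ℝ) + 2) * (Br * μ ^ n) * K ≤ ((n:ℝ) + 2) ^ 2 * (Br * μ ^ n * K) := by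
    have : ((n:ℝ) + 2) ≤ ((n:ℝ) + 2) ^ 2 := by nlinarith
    calc ((n:ℝ) + 2) * (Br * μ ^ n) * K = ((n:ℝ) + 2) * (Br * μ ^ n * K) := by ring
      _ ≤ ((n:ℝ) + 2) ^ 2 * (Br * μ ^ n * K) := mul_le_mul_of_nonneg_right this (by positivity)
  calc C14 * L ^ (2 * n + 6) * ((((n:ℝ) + 2) * (Br * μ ^ n)) ^ 2 +
        ((n:ℝ) + 2) * (Br * μ ^ n) * K)
      ≤ C14 * L ^ (2 * n + 6) * ((((n:ℝ) + 2) * (Br * μ ^ n)) ^ 2 +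
        ((n:ℝ) + 2) ^ 2 * (Br * μ ^ n * K)) := by gcongr
    _ = _ := by
        have : (μ ^ n) ^ 2 = μ ^ (2 * n) := by rw [← pow_mul]; congr 1; ring
        rw [mul_pow, mul_pow, this]; ring

lemma n6 {μ Mr W V a θ : ℝ} (hμ : 1 ≤ μ) (hM : 1 ≤ Mr) (hW : 0 ≤ W) (ha : 0 ≤ a) (hθ : 0 < θ)
    (hV : V ≤ a * W) :
    θ * (4 * (μ * Mr * V) + 48 * (μ * Mr * (2 * V) + 1)) ≤
      (100 * a + 48) * (θ * (μ * Mr * W + 1)) := by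
  have hq : 0 ≤ μ * Mr := by positivity
  have e4 : μ * Mr * V ≤ a * (μ * Mr * W) := by
    calc μ * Mr * V ≤ μ * Mr * (a * W) := mul_le_mul_of_nonneg_left hV hq
      _ = _ := by ring
  have e6 : 0 ≤ μ * Mr * W := by positivity
  have e7 : 4 * (μ * Mr * V) + 48 * (μ * Mr * (2 * V) + 1) ≤
      (100 * a + 48) * (μ * Mr * W + 1) := by nlinarith
  calc θ * (4 * (μ * Mr * V) + 48 * (μ * Mr * (2 * V) + 1))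
      ≤ θ * ((100 * a + 48) * (μ * Mr * W + 1)) := mul_le_mul_of_nonneg_left e7 hθ.le
    _ = _ := by ring

lemma n7 {n : ℕ} {μ L lq l8 : ℝ} (hμ : 1 ≤ μ) (hL : 1 ≤ L) (h8 : l8 ≤ 3) (hq : lq ≤ L + 1) :
    l8 + ((n:ℝ) + 4) * μ * lq ≤ (2 * (n:ℝ) + 11) * (μ * L) := by
  have hn : (0:ℝ) ≤ n := Nat.cast_nonneg n
  have e5 : 1 ≤ μ * L := by nlinarith
  have e6 : ((n:ℝ) + 4) * μ * lq ≤ ((n:ℝ) + 4) * μ * (2 * L) :=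
    mul_le_mul_of_nonneg_left (by linarith) (by positivity)
  nlinarith

lemma nsum {S S' bbv SB SP q1 q2 m1 t1 t2 t3 t4 k1 k2 k3 k4 c1 c2 c3 c4 c5 th lg : ℝ}
    (h1 : |S - S'| ≤ m1 + SB) (h2 : |S'| ≤ bbv + th + lg)
    (h3 : bbv ≤ 2 * (q1 + q2 + SP)) (hm1 : m1 ≤ c1 * t1) (hSB : SB ≤ c2 * t2 + 48 * t1)
    (hSP : SP ≤ c3 * t1) (hq1 : q1 ≤ c4 * t1) (hq2 : q2 ≤ c5 * t2) (hth : th ≤ k3 * t3)
    (hlg : lg ≤ k4 * t4) (hk1 : k1 = c1 + 48 + 2 * c3 + 2 * c4) (hk2 : k2 = c2 + 2 * c5) :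
    |S| ≤ k1 * t1 + k2 * t2 + k3 * t3 + k4 * t4 := by
  have e1 : |S| ≤ |S - S'| + |S'| := by
    have := abs_add_le (S - S') S'
    rwa [sub_add_cancel] at this
  rw [hk1, hk2]
  linarith

end Pool.Agent.Y258.Num
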