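import Pool.Agent.Y258.SD.Core6
import Pool.Agent.Y258.SD.CoreN

set_option autoImplicit false
set_option linter.unusedSectionVars false

/-!
# St_C18
-/

namespace Pool.Agent.Y258

open Finset Pool.Agent.H470D4
open Pool.Agent.H935R2.PS (La uu nn dl mx Suit)

lemma log_le_La {q : ℕ} (hq : 1 ≤ q) : Real.log q ≤ La q + 1 := by
  have h1 : q < 2 ^ (La q + 1) := Nat.lt_pow_succ_log_self (by norm_num) q
  have h2 : (q:ℝ) ≤ 2 ^ (La q + 1) := by exact_mod_cast h1.le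
  have hq0 : (0:ℝ) < q := by exact_mod_cast hq
  have h3 : Real.log q ≤ (La q + 1) * Real.log 2 := by
    calc Real.log q ≤ Real.log ((2:ℝ) ^ (La q + 1)) := Real.log_le_log hq0 h2
      _ = (La q + 1) * Real.log 2 := by rw [Real.log_pow]; push_cast; ring
  have h4 : Real.log 2 ≤ 1 := by
    have := Real.log_two_lt_d9
    linarith
  have h5 : (0:ℝ) ≤ La q + 1 := by positivity
  nlinarith

lemma log8_le : Real.log 8 ≤ 3 := by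
  have : Real.log 8 = 3 * Real.log 2 := by
    rw [show (8:ℝ) = 2 ^ 3 by norm_num, Real.log_pow]; push_cast; ring
  rw [this]
  have := Real.log_two_lt_d9
  linarith

theorem c18_of (h1 : St_C1) (h2 : St_C2) (h3 : St_C3) (h4 : St_C4) (h5 : St_C5b) (h6 : St_C6)
    (h8 : St_C8b) (h10 : St_C10) (h11 : St_C11) (h12 : St_C12) (h13 : St_C13) (h14 : St_C14)
    (h16 : St_C16) (h17 : St_C17) : St_C18 := by
  classical
  intro n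
  obtain ⟨C5, h5⟩ := h5 n
  obtain ⟨C6, h6⟩ := h6 n
  obtain ⟨C8, h8⟩ := h8 n
  obtain ⟨C11, h11⟩ := h11 n
  obtain ⟨C12, h12⟩ := h12 n
  obtain ⟨C13, h13⟩ := h13 n
  obtain ⟨C14, h14⟩ := h14 n
  obtain ⟨NB, hNB⟩ : ∃ NB : ℕ, NB = (2 * (2 * (n + 1)) + 1) ^ (n + 2) := ⟨_, rfl⟩
  -- the constants
  obtain ⟨k1, hk1⟩ : ∃ k : ℕ, k = 2 ^ (n + 1) + 48 + 2 * (48 * ((n + 2) * NB * C5 + 1)) +
    2 * ((n + 2) * (C11 + NB * C12 + (n + 2) * C13)) := ⟨_, rfl⟩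
  obtain ⟨k2, hk2⟩ : ∃ k : ℕ, k = 48 * (((n + 3) * (n + 2) + (n + 2) * (2 * n + 6)) * C8) +
    2 * ((n + 2) ^ 2 * 2 ^ (n + 1) * C11) := ⟨_, rfl⟩
  obtain ⟨k3, hk3⟩ : ∃ k : ℕ, k = 100 * (C14 * (n + 2) ^ 2) + 48 := ⟨_, rfl⟩
  obtain ⟨k4, hk4⟩ : ∃ k : ℕ, k = 2 * n + 11 := ⟨_, rfl⟩
  refine ⟨8 + 48 * 4 ^ (n + 4) + C6 + C11 + C12 + k1 + k2 + k3 + k4, ?_⟩
  obtain ⟨C, hC⟩ : ∃ C : ℕ, C = 8 + 48 * 4 ^ (n + 4) + C6 + C11 + C12 + k1 + k2 + k3 + k4 :=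
    ⟨_, rfl⟩
  rw [← hC]
  intro q hq hsuit hCq M B c hc hM hB K0 hK0 hK0L hdens hsm θ hθ
  have hq8 : 8 ≤ q := by omega
  -- basic facts
  have hLa1 : 1 ≤ La q := by
    unfold La
    exact Nat.log_pos (by norm_num) (by omega)
  have huu1 : 1 ≤ uu q := by unfold uu; omega
  obtain ⟨m, hm⟩ : ∃ m : ℕ, m = M * B := ⟨_, rfl⟩
  have hm1 : 1 ≤ m := by rw [hm]; exact Nat.mul_pos hM hB
  -- density
  have hAl : ∀ (j : ℕ) (ω : Pth q B), q ^ B ≤ 2 * (AlS c K0 (2*n+6) j ω).card := by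
    refine h6 q (by omega) M B c hc hM K0 (2*n+6) (by omega) (le_trans ?_ hdens)
    apply Nat.mul_le_mul (by omega)
    apply Nat.mul_le_mul_left
    exact Nat.pow_le_pow_right hLa1 (by omega)
  have hsm' : 48 * (4:ℝ) ^ (n + 4) * ((M * B + 1 : ℕ) : ℝ) ^ (2 * n + 6) ≤ q := by
    have h : 48 * 4 ^ (n + 4) * (M * B + 1) ^ (2 * n + 6) ≤ q :=
      le_trans (Nat.mul_le_mul_right _ (by omega)) hsm
    exact_mod_cast h
  obtain ⟨ω, hE, hNR, hAω, hGω, hSB, hSP, hmain⟩ := exists_good_path (C11 := C11) (C12 := C12)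
    (C13 := C13) (C14 := C14) (K0 := K0) h1 h2 h3 h4 h10 h17 hc hq8 hM hAl hsm'
    (a5 := C5 * (La q : ℝ) ^ (2 * n + 5) / 2 ^ K0) (a8 := C8 * (La q : ℝ) ^ (n + 3))
    (by positivity) (by positivity)
    (fun Al hd r l l' a1 a2 a3 ω₀ => h5 q hq8 M B c hc Al hd K0 r l l' a1 a2 a3 ω₀)
    (fun Al hd l r a1 a2 ω₀ => h8 q hq8 M B c hc Al hd l r a1 a2 ω₀)
    (fun ω r b l a1 a2 X Y t => h11 q hsuit (by omega) M B c hc K0 (2*n+6) (by omega)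
      (le_trans (Nat.mul_le_mul_right _ (by omega)) hK0) hK0L ω r b l a1 a2 X Y t)
    (fun ω r b l l' a1 a2 a3 a4 a5 => h12 q hsuit (by omega) M B c hc K0 (2*n+6) (by omega)
      (le_trans (Nat.mul_le_mul_right _ (by omega)) hK0) hK0L ω r b l l' a1 a2 a3 a4 a5)
    (fun ω r b l l' a1 a2 a3 a4 a5 => h13 q (by omega) M B c hc K0 (2*n+6) (by omega)
      ω r b l l' a1 a2 a3 a4 a5)
    (fun ω r b a1 a2 a3 => h14 q (by omega) M B c hc K0 (2*n+6) (by omega) ω r b a1 a2 a3) hθ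
  refine ⟨ω, hE, ?_⟩
  intro X Y hX hY
  -- the data
  let δ : Dlt q M B n := (fun a j => X a j, fun j => Y j, fun j => row M ω j (xX M B X))
  have hX' : (fun a => ex (δ.1 a)) = X := by funext a; exact ex_eq _ _ (hX a)
  have hY' : ex δ.2.1 = Y := ex_eq _ _ hY
  have ht' : ∀ r < M * B, ex δ.2.2 r = row M ω r (xX M B X) := by
    intro r hr
    exact ex_lt δ.2.2 ⟨r, hr⟩
  have hmainδ := hmain δ
  rw [hX', hY'] at hmainδ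
  obtain ⟨t, ht⟩ : ∃ t, t = ex δ.2.2 := ⟨_, rfl⟩
  rw [← ht] at hmainδ ht'
  have hbbs := sum_bb (C11 := C11) (C12 := C12) (C13 := C13) (K0 := K0) hc h16 hE X Y t ht'
  have hme := main_eq (K0 := K0) (c := c) hM hE hAω hGω X Y t
  rw [← hme] at hmainδ
  -- row decomposition
  have hrow : |∑ r ∈ range (M * B), XX c (cD M B X Y) ω r -
      ∑ r ∈ range (M * B), (if r < n + 3 then 0 else
      ∑ b ∈ range M, ∑ l ∈ IL M B n (2*n+6) r b, TT c (cD M B X Y) t ω r l)| ≤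
      (M * B : ℕ) * ((M * B + 1 : ℕ) : ℝ) ^ (n + 1) + SB c (2*n+6) ω := by
    rw [← sum_sub_distrib]
    refine (abs_sum_le_sum_abs _ _).trans ?_
    refine (sum_le_sum fun r hr => row_decomp h10 c (K7 := 2*n+6) (by omega) ω hE hNR X Y t
      (mem_range.1 hr) (ht' r (mem_range.1 hr))).trans ?_
    rw [sum_add_distrib, sum_const, card_range, nsmul_eq_mul]
    exact le_rfl
  -- real numbers
  clear hAω hGω hNR hme h1 h2 h3 h4 h5 h6 h8 h10 h11 h12 h13 h14 h16 h17 hmain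
  obtain ⟨S, hS⟩ : ∃ S : ℝ, S = ∑ r ∈ range (M * B), XX c (cD M B X Y) ω r := ⟨_, rfl⟩
  obtain ⟨S', hS'⟩ : ∃ S' : ℝ, S' = ∑ r ∈ range (M * B), (if r < n + 3 then 0 else
      ∑ b ∈ range M, ∑ l ∈ IL M B n (2*n+6) r b, TT c (cD M B X Y) t ω r l) := ⟨_, rfl⟩
  obtain ⟨bbv, hbbv⟩ : ∃ b : ℝ, b = ∑ j ∈ range (M * B * M), ii (GG c K0 (2*n+6) j ω) *
      (2 * bb c K0 (2*n+6) C11 C12 C13 X Y t (j / M) (M - 1 - j % M) ω) := ⟨_, rfl⟩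
  obtain ⟨SBv, hSBv⟩ : ∃ b : ℝ, b = SB c (2*n+6) ω := ⟨_, rfl⟩
  obtain ⟨SPv, hSPv⟩ : ∃ b : ℝ, b = SP c K0 (2*n+6) ω := ⟨_, rfl⟩
  rw [← hS, ← hS', ← hSBv] at hrow
  rw [← hS', ← hbbv] at hmainδ
  rw [← hbbv, ← hSPv] at hbbs
  rw [← hSBv] at hSB
  rw [← hSPv] at hSP
  rw [← hS]
  clear hS hS' hbbv hSBv hSPv hX' hY' ht ht' hX hY δ hE X Y ω
  obtain ⟨L, hL⟩ : ∃ L : ℝ, L = La q := ⟨_, rfl⟩
  obtain ⟨U, hU⟩ : ∃ U : ℝ, U = uu q := ⟨_, rfl⟩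
  obtain ⟨K, hK⟩ : ∃ K : ℝ, K = 2 ^ K0 := ⟨_, rfl⟩
  obtain ⟨μ, hμ⟩ : ∃ μ : ℝ, μ = ((M * B : ℕ) : ℝ) := ⟨_, rfl⟩
  obtain ⟨Mr, hMr⟩ : ∃ Mr : ℝ, Mr = M := ⟨_, rfl⟩
  obtain ⟨Br, hBr⟩ : ∃ Br : ℝ, Br = B := ⟨_, rfl⟩
  have hL1 : 1 ≤ L := by rw [hL]; exact_mod_cast hLa1
  have hU1 : 1 ≤ U := by rw [hU]; exact_mod_cast huu1
  have hM1 : 1 ≤ Mr := by rw [hMr]; exact_mod_cast hM
  have hB1 : 1 ≤ Br := by rw [hBr]; exact_mod_cast hB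
  have hμMB : μ = Mr * Br := by rw [hμ, hMr, hBr]; push_cast; ring
  have hμ1 : 1 ≤ μ := by rw [hμ]; rw [hm] at hm1; exact_mod_cast hm1
  have hK1 : 0 < K := by rw [hK]; positivity
  have hKd : Br * μ ^ n * L ^ (n + 4) ≤ K := by
    have h7 : 1 * (B * (M * B) ^ n * La q ^ (n + 4)) ≤ 2 ^ K0 := by
      refine le_trans ?_ hdens
      apply Nat.mul_le_mul (by omega)
      apply Nat.mul_le_mul_right
      apply Nat.mul_le_mul_left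
      exact Nat.pow_le_pow_left (by omega) n
    rw [one_mul] at h7
    rw [hBr, hμ, hL, hK]
    exact_mod_cast h7
  have hKL : L ^ (n + 4) ≤ K := by
    refine le_trans ?_ hKd
    have h7 : 1 ≤ Br * μ ^ n := one_le_mul_of_one_le_of_one_le hB1 (one_le_pow₀ hμ1)
    exact le_mul_of_one_le_left (by positivity) h7
  have hLK : L ^ (2 * n + 5) / K ≤ L ^ (n + 1) := by
    rw [div_le_iff₀ hK1]
    calc L ^ (2 * n + 5) = L ^ (n + 1) * L ^ (n + 4) := by rw [← pow_add]; congr 1; omega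
      _ ≤ L ^ (n + 1) * K := mul_le_mul_of_nonneg_left hKL (by positivity)
  have hBLK : Br * μ ^ n * (L ^ (2 * n + 5) / K) ≤ L ^ (n + 1) := by
    rw [← mul_div_assoc, div_le_iff₀ hK1]
    calc Br * μ ^ n * L ^ (2 * n + 5) = L ^ (n + 1) * (Br * μ ^ n * L ^ (n + 4)) := by
          have : L ^ (2 * n + 5) = L ^ (n + 1) * L ^ (n + 4) := by
            rw [← pow_add]; congr 1; omega
          rw [this]; ring
      _ ≤ L ^ (n + 1) * K := mul_le_mul_of_nonneg_left hKd (by positivity)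
  -- the four terms
  obtain ⟨t1, ht1⟩ : ∃ t1 : ℝ, t1 = μ ^ (n + 2) * L ^ (n + 1) * U ^ 2 := ⟨_, rfl⟩
  obtain ⟨t2, ht2⟩ : ∃ t2 : ℝ, t2 = μ ^ (n + 1) * Mr * L ^ (n + 3) := ⟨_, rfl⟩
  obtain ⟨W, hW⟩ : ∃ W : ℝ, W = L ^ (2 * n + 6) * (Br ^ 2 * μ ^ (2 * n) + Br * μ ^ n * K) :=
    ⟨_, rfl⟩
  obtain ⟨t3, ht3⟩ : ∃ t3 : ℝ, t3 = θ * (μ * Mr * W + 1) := ⟨_, rfl⟩
  obtain ⟨t4, ht4⟩ : ∃ t4 : ℝ, t4 = μ * L / θ := ⟨_, rfl⟩
  have hgoal : ((C:ℕ):ℝ) * (((M * B : ℕ) : ℝ) ^ (n + 2) * (La q : ℝ) ^ (n + 1) * (uu q : ℝ) ^ 2 +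
          ((M * B : ℕ) : ℝ) ^ (n + 1) * M * (La q : ℝ) ^ (n + 3) +
          θ * (((M * B : ℕ) : ℝ) * M * (La q : ℝ) ^ (2 * n + 6) *
            ((B : ℝ) ^ 2 * ((M * B : ℕ) : ℝ) ^ (2 * n) + B * ((M * B : ℕ) : ℝ) ^ n * 2 ^ K0) + 1) +
          ((M * B : ℕ) : ℝ) * (La q : ℝ) / θ) = C * (t1 + t2 + t3 + t4) := by
    rw [ht1, ht2, ht3, ht4, hW, hμ, hL, hU, hMr, hBr, hK, mul_assoc (((M * B : ℕ) : ℝ) * (M:ℝ))]
  rw [hgoal]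
  have hLn : 1 ≤ L ^ (n + 1) := one_le_pow₀ hL1
  have hμn : 1 ≤ μ ^ (n + 2) := one_le_pow₀ hμ1
  have hU2 : 1 ≤ U ^ 2 := one_le_pow₀ hU1
  have hb1 : μ ^ (n + 2) * L ^ (n + 1) ≤ t1 := by
    rw [ht1]; exact le_mul_of_one_le_right (by positivity) hU2
  have hb0 : μ ^ (n + 2) ≤ t1 := (le_mul_of_one_le_right (by positivity) hLn).trans hb1
  have h1t : 1 ≤ t1 := hμn.trans hb0
  have ht10 : 0 ≤ t1 := zero_le_one.trans h1t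
  have ht20 : 0 ≤ t2 := by rw [ht2]; positivity
  have hW0 : 0 ≤ W := by rw [hW]; positivity
  have ht30 : 0 ≤ t3 := by rw [ht3]; positivity
  have ht40 : 0 ≤ t4 := by rw [ht4]; positivity
  -- the pieces
  have hμp1 : (((M * B + 1 : ℕ) : ℝ)) ^ (n + 1) ≤ 2 ^ (n + 1) * μ ^ (n + 1) := by
    rw [← mul_pow]
    apply pow_le_pow_left₀ (by positivity)
    have e1 : M * B + 1 ≤ 2 * (M * B) := by omega
    rw [hμ]
    exact_mod_cast e1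
  have p1 : ((M * B : ℕ) : ℝ) * ((M * B + 1 : ℕ) : ℝ) ^ (n + 1) ≤ 2 ^ (n + 1) * t1 := by
    rw [← hμ]
    calc μ * ((M * B + 1 : ℕ) : ℝ) ^ (n + 1) ≤ μ * (2 ^ (n + 1) * μ ^ (n + 1)) :=
          mul_le_mul_of_nonneg_left hμp1 (by positivity)
      _ = 2 ^ (n + 1) * μ ^ (n + 2) := by ring
      _ ≤ 2 ^ (n + 1) * t1 := mul_le_mul_of_nonneg_left hb0 (by positivity)
  have p2 : SBv ≤ 48 * ((((n:ℝ) + 3) * (n + 2) + (n + 2) * (2 * n + 6)) * C8) * t2 +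
      48 * t1 := by
    apply Num.n2 (μ := μ) (Mr := Mr) (L := L) hμ1 hM1 hL1 (Nat.cast_nonneg _) ht2 h1t
    refine hSB.trans (le_of_eq ?_)
    rw [hμ, hMr, hL]; push_cast; ring
  have p3 : SPv ≤ 48 * (((n:ℝ) + 2) * NB * C5 + 1) * t1 := by
    apply Num.n3 (μ := μ) (Mr := Mr) (Br := Br) (L := L) (K := K) hμ1 hM1 hB1 hμMB
      (Nat.cast_nonneg _) (Nat.cast_nonneg _) hLK hb1 h1t
    refine hSP.trans (le_of_eq ?_)
    rw [← hNB, ← hL, ← hK, ← hμ, ← hMr, ← hBr]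
    push_cast
    ring
  have p4 : ((M * B : ℕ) : ℝ) * (M * (((n + 2 : ℕ) * (B * ((M * B : ℕ) : ℝ) ^ n)) *
        (C11 * (La q : ℝ) ^ (n + 1) * (uu q : ℝ) ^ 2 +
        ((2 * (2 * (n + 1)) + 1) ^ (n + 2) : ℕ) * (C12 * (La q : ℝ) ^ (n + 1)) +
        ((n + 2 : ℕ) * (B * ((M * B : ℕ) : ℝ) ^ n)) *
          (C13 * (La q : ℝ) ^ (2 * n + 5) / 2 ^ K0)))) ≤
      ((n:ℝ) + 2) * (C11 + NB * C12 + ((n:ℝ) + 2) * C13) * t1 := by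
    rw [← hNB, ← hL, ← hK, ← hμ, ← hMr, ← hBr, ← hU]
    have e1 := Num.n4 (n := n) (μ := μ) (Mr := Mr) (Br := Br) (L := L) (U := U) (K := K)
      (C11 := C11) (C12 := C12) (C13 := C13) (NB := NB) (t1 := t1) hμ1 hμMB (Nat.cast_nonneg _)
      (Nat.cast_nonneg _) (Nat.cast_nonneg _) (Nat.cast_nonneg _) ht1 hBLK hb1
    have e2 : (((n + 2 : ℕ) : ℝ)) = (n:ℝ) + 2 := by push_cast; rfl
    rw [e2]
    exact e1
  have p5 : (((n + 2) ^ 2 * (M * (M * B + 1) ^ (n + 1)) : ℕ) : ℝ) * (C11 * (La q : ℝ) ^ (n + 3)) ≤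
      ((n:ℝ) + 2) ^ 2 * 2 ^ (n + 1) * C11 * t2 := by
    have e1 : (((n + 2) ^ 2 * (M * (M * B + 1) ^ (n + 1)) : ℕ) : ℝ) =
        ((n:ℝ) + 2) ^ 2 * (Mr * ((M * B + 1 : ℕ) : ℝ) ^ (n + 1)) := by
      rw [hMr]; push_cast; ring
    rw [e1, ← hL]
    exact Num.n5 hM1 hL1 (Nat.cast_nonneg _) ht2 hμp1
  have p6 : θ * (4 * ((M * B * M : ℕ) * VV0 q M B n K0 C14) +
      48 * ((M * B * M : ℕ) * (2 * VV0 q M B n K0 C14) + 1)) ≤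
      (100 * (C14 * ((n:ℝ) + 2) ^ 2) + 48) * t3 := by
    have e0 : (((M * B * M : ℕ) : ℝ)) = μ * Mr := by rw [hμ, hMr]; push_cast; ring
    have e1 : VV0 q M B n K0 C14 ≤ C14 * ((n:ℝ) + 2) ^ 2 * W := by
      unfold VV0
      rw [← hL, ← hK, ← hμ, ← hBr, hW]
      have e2 : (((n + 2 : ℕ) : ℝ)) = (n:ℝ) + 2 := by push_cast; rfl
      rw [e2]
      exact Num.n6a hμ1 hB1 hL1 hK1 (Nat.cast_nonneg _)
    rw [e0, ht3]
    exact Num.n6 hμ1 hM1 hW0 (by positivity) hθ e1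
  have p7 : Real.log (8 * (q:ℝ) ^ ((n + 4) * (M * B))) / θ ≤ (2 * (n:ℝ) + 11) * t4 := by
    have hq0 : (0:ℝ) < q := by exact_mod_cast (by omega : 0 < q)
    have e1 : Real.log (8 * (q:ℝ) ^ ((n + 4) * (M * B))) ≤ (2 * (n:ℝ) + 11) * (μ * L) := by
      rw [Real.log_mul (by norm_num) (by positivity), Real.log_pow]
      have e4 : (((n + 4) * (M * B) : ℕ) : ℝ) = ((n:ℝ) + 4) * μ := by rw [hμ]; push_cast; ring
      rw [e4]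
      refine Num.n7 hμ1 hL1 log8_le ?_
      rw [hL]
      exact log_le_La (by omega)
    rw [ht4, ← mul_div_assoc]
    exact div_le_div_of_nonneg_right e1 hθ.le
  -- conclusion
  have hK1' : ((k1:ℕ):ℝ) = 2 ^ (n + 1) + 48 + 2 * (48 * (((n:ℝ) + 2) * NB * C5 + 1)) +
      2 * (((n:ℝ) + 2) * (C11 + NB * C12 + ((n:ℝ) + 2) * C13)) := by rw [hk1]; push_cast; ring
  have hK2' : ((k2:ℕ):ℝ) = 48 * ((((n:ℝ) + 3) * (n + 2) + (n + 2) * (2 * n + 6)) * C8) +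
    2 * (((n:ℝ) + 2) ^ 2 * 2 ^ (n + 1) * C11) := by rw [hk2]; push_cast; ring
  have hK3' : ((k3:ℕ):ℝ) = 100 * (C14 * ((n:ℝ) + 2) ^ 2) + 48 := by rw [hk3]; push_cast; ring
  have hK4' : ((k4:ℕ):ℝ) = 2 * (n:ℝ) + 11 := by rw [hk4]; push_cast; ring
  rw [← hK3'] at p6
  rw [← hK4'] at p7
  have hsum : |S| ≤ k1 * t1 + k2 * t2 + k3 * t3 + k4 * t4 :=
    Num.nsum hrow hmainδ hbbs p1 p2 p3 p4 p5 p6 p7 hK1' hK2'
  refine hsum.trans ?_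
  have g1 : ((k1:ℕ):ℝ) ≤ C := by exact_mod_cast (by omega)
  have g2 : ((k2:ℕ):ℝ) ≤ C := by exact_mod_cast (by omega)
  have g3 : ((k3:ℕ):ℝ) ≤ C := by exact_mod_cast (by omega)
  have g4 : ((k4:ℕ):ℝ) ≤ C := by exact_mod_cast (by omega)
  rw [mul_add, mul_add, mul_add]
  exact add_le_add (add_le_add (add_le_add (mul_le_mul_of_nonneg_right g1 ht10)
    (mul_le_mul_of_nonneg_right g2 ht20)) (mul_le_mul_of_nonneg_right g3 ht30))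
    (mul_le_mul_of_nonneg_right g4 ht40)

end Pool.Agent.Y258
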