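import Pool.Agent.H935R2.PS.Defs

set_option autoImplicit false

/-!
# Power saving in the star discrepancy in every dimension: number theoretic definitions

`q` is a huge prime, `La q` the number of dyadic scales, `nn x` the absolute value of the absolutely
least residue, `dl x` its dyadic size.
-/

namespace Pool.Agent.Y258

open Finset Pool.Agent.H935R2.PS

section defs
variable {q : ℕ} {ι : Type} [Fintype ι]

/-- total dyadic size of a vector of residues -/
def sz (h : ι → ZMod q) : ℕ := ∑ a, dl (h a)

/-- `h` is short (bad) -/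
def Bd (D K0 : ℕ) (h : ι → ZMod q) : Prop := sz h + K0 ≤ D * La q

/-- the absolutely least residues of `h` and `h'` are parallel over `ℚ` -/
def Prl (h h' : ι → ZMod q) : Prop :=
  ∀ a b, (h a).valMinAbs * (h' b).valMinAbs = (h b).valMinAbs * (h' a).valMinAbs

/-- `h` is parallel over `ℚ` to a bad vector -/
def BdP (D K0 : ℕ) (h : ι → ZMod q) : Prop :=
  ∃ h' : ι → ZMod q, (∀ a, h' a ≠ 0) ∧ Prl h h' ∧ Bd D K0 h'

/-- the product of the `1 / |h a|` -/
noncomputable def wt (h : ι → ZMod q) : ℝ := ∏ a, (1 / (nn (h a) : ℝ))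

/-- the product of the `1 / max 1 |h a|` -/
noncomputable def wm (h : ι → ZMod q) : ℝ := ∏ a, (1 / mx (h a))

/-- Fourier coefficient of the interval `{-t, …, -1}` plus `φ` times the point `0` -/
noncomputable def Fc [NeZero q] (t : ℕ) (φ : ℝ) (x : ZMod q) : ℂ :=
  ((∑ j ∈ Icc 1 t, ZMod.stdAddChar (x * (j : ZMod q))) + (φ : ℂ)) / (q : ℂ)

end defs

end Pool.Agent.Y258
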