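import Pool.Agent.Y258.SD.Core7
import Pool.Agent.Y285.SD.A1
import Pool.Agent.Y316.SD.A2
import Pool.Agent.Y316.SD.A3
import Pool.Agent.Y474.SD.A4
import Pool.Agent.Y474.SD.A5
import Pool.Agent.Y899.SD.A6
import Pool.Agent.Y255.SD.A78
import Pool.Agent.Y359.SD.C1
import Pool.Agent.Y359.SD.C2
import Pool.Agent.Y283.SD.C3
import Pool.Agent.Y590.SD.C4
import Pool.Agent.Y590.SD.Ind
import Pool.Agent.Y496.SD.C5b
import Pool.Agent.Y496.SD.Num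
import Pool.Agent.Y290.SD.C9
import Pool.Agent.Y290.SD.C68
import Pool.Agent.Y838.SD.C10
import Pool.Agent.Y419.SD.C11
import Pool.Agent.Y833.SD.C12
import Pool.Agent.Y272.SD.C16
import Pool.Agent.Y272.SD.C17
import Pool.Agent.Y141.C19
import Pool.Agent.Y245.SD.C20
import Pool.Agent.Y492.SD.C21
import Pool.Agent.H470D4.Closed

set_option autoImplicit false

/-!
# Power saving in the star discrepancy in all dimensions `d ≥ 3`: assembly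
-/

namespace Pool.Agent.Y258.Final

open Finset Pool.Agent.Y258

theorem a7 : St_A7 :=
  Pool.Agent.Y255.SD.A7_of (Pool.Agent.Y316.SD.A2_of_A1 Pool.Agent.Y285.SD.t_A1)
    (Pool.Agent.Y474.SD.a5 Pool.Agent.Y474.SD.a4)

theorem a8 : St_A8 :=
  Pool.Agent.Y255.SD.A8_of (Pool.Agent.Y316.SD.A3_of_A1 Pool.Agent.Y285.SD.t_A1)
    Pool.Agent.Y899.SD.A6a

theorem c18 : St_C18 :=
  c18_of Pool.Agent.Y359.SD.c1 Pool.Agent.Y359.SD.c2 Pool.Agent.Y283.SD.C3 Pool.Agent.Y590.SD.c4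
    Pool.Agent.Y496.SD.c5b (Pool.Agent.Y290.SD.C6_of Pool.Agent.Y899.SD.A6b)
    (Pool.Agent.Y359.SD.c8b Pool.Agent.Y899.SD.A6a) Pool.Agent.Y838.SD.c10
    (Pool.Agent.Y419.SD.C11_of a7 (Pool.Agent.Y290.SD.C8_of Pool.Agent.Y899.SD.A6a)
      Pool.Agent.Y838.SD.c10)
    (Pool.Agent.Y833.SD.C12 Pool.Agent.Y899.SD.A6a a8)
    (Pool.Agent.Y290.SD.C13_of Pool.Agent.Y899.SD.A6a Pool.Agent.Y899.SD.A6b)
    (Pool.Agent.Y290.SD.C14_of Pool.Agent.Y899.SD.A6a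
      (Pool.Agent.Y290.SD.C8_of Pool.Agent.Y899.SD.A6a)
      (Pool.Agent.Y290.SD.C9_of Pool.Agent.Y899.SD.A6c))
    Pool.Agent.Y272.SD.st_C16 Pool.Agent.Y272.SD.st_C17

theorem nets : St_Nets :=
  Pool.Agent.Y590.SD.ind (Pool.Agent.Y496.SD.Num.num c18) Pool.Agent.Y141.SDC19.C19
    Pool.Agent.Y245.SD.C20

/-- Power saving, boxes `[0, x)`. -/
theorem star_power : St_C21 := Pool.Agent.Y492.SD.c21 nets

/-- Power saving, boxes `[0, x]`. -/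
theorem star_closed (n : ℕ) (hn : 1 ≤ n) : ∃ δ : ℝ, 0 < δ ∧ ∃ C : ℝ, 0 < C ∧ ∀ N : ℕ, 3 ≤ N →
    ∃ ξ : Fin N → Fin (n + 2) → ℝ,
    (∀ i j, 0 ≤ ξ i j ∧ ξ i j < 1) ∧ ∀ x : Fin (n + 2) → ℝ, (∀ j, 0 ≤ x j) → (∀ j, x j ≤ 1) →
      ∀ S : Finset (Fin N), (∀ i, i ∈ S ↔ ∀ j, ξ i j ≤ x j) →
      |(S.card : ℝ) - N * ∏ j, x j| ≤ C * (Real.log N) ^ ((n:ℝ) + 1 - δ) := by
  obtain ⟨δ, hδ, C, hC, h⟩ := star_power n hn
  refine ⟨δ, hδ, C, hC, fun N hN => ?_⟩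
  obtain ⟨ξ, hξ, h1⟩ := h N hN
  refine ⟨ξ, hξ, fun x hx0 hx1 S hS => ?_⟩
  refine H470D4.closed_of_open_all (fun i j => (hξ i j).2) ?_ hx0 hx1 hS
  intro y hy0 hy1 S' hS'
  have h2 : S' = (univ : Finset (Fin N)).filter (fun i => ∀ j, ξ i j < y j) := by
    ext i
    rw [mem_filter, hS' i]
    simp only [mem_univ, true_and]
  rw [h2]
  exact h1 y hy0 hy1

end Pool.Agent.Y258.Final
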