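import Pool.Agent.Y258.SD.CStmts

set_option autoImplicit false
set_option linter.unusedSectionVars false

/-!
# Shared lemmas on the random path
-/

namespace Pool.Agent.Y258

open Finset Pool.Agent.H470D4
open Pool.Agent.H935R2.PS (La uu nn dl mx Suit)

section aff
variable {q M B n : ℕ} [Fact q.Prime]

open Classical in
/-- Indicator that the row `r` equals `φ` on `A`. -/
noncomputable def kif (M : ℕ) (r : ℕ) (A : Submodule (ZMod q) (Vec q M B))
    (φ : Vec q M B →ₗ[ZMod q] ZMod q) (ω : Pth q B) : ℝ :=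
  if ∀ v ∈ A, row M ω r v = φ v then 1 else 0

lemma kif_nonneg (M r : ℕ) (A : Submodule (ZMod q) (Vec q M B))
    (φ : Vec q M B →ₗ[ZMod q] ZMod q) (ω : Pth q B) : 0 ≤ kif M r A φ ω := by
  unfold kif; split_ifs <;> norm_num

lemma kif_le_one (M r : ℕ) (A : Submodule (ZMod q) (Vec q M B))
    (φ : Vec q M B →ₗ[ZMod q] ZMod q) (ω : Pth q B) : kif M r A φ ω ≤ 1 := by
  unfold kif; split_ifs <;> norm_num

open Classical in
lemma E1_kif (Al : ℕ → Pth q B → Finset (Blk q B)) (hB : ∀ j ω, q ^ B ≤ 2 * (Al j ω).card)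
    (h4 : 4 ≤ q) (r : ℕ) (b : Fin M) (A : Submodule (ZMod q) (Vec q M B))
    (φ : Vec q M B →ₗ[ZMod q] ZMod q) (hA : A ≤ Vb q M B b) (ω : Pth q B) :
    E1 Al (r * M + (M - 1 - b)) (kif M r A φ) ω ≤
      (2 / (q : ℝ)) ^ (Module.finrank (ZMod q) (A.map (Rb q B b))) *
        kif M r (A ⊓ Vb q M B ((b:ℕ)+1)) φ ω := by
  set κ := Module.finrank (ZMod q) (A.map (Rb q B b)) with hκ
  set A' := A ⊓ Vb q M B ((b:ℕ)+1) with hA'
  set j := r * M + (M - 1 - b) with hj
  have hp0 : (0:ℝ) < q := by exact_mod_cast (by omega : 0 < q)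
  have hcardpos : 0 < (Al j ω).card := by
    have h1 := hB j ω
    have h2 : 0 < q ^ B := Nat.pow_pos (by omega)
    omega
  have hcard : (0:ℝ) < (Al j ω).card := by exact_mod_cast hcardpos
  by_cases h0 : kif M r A' φ ω = 0
  · have hz : ∀ z, kif M r A φ (Function.update ω j z) = 0 := by
      intro z
      unfold kif at h0 ⊢
      rw [if_neg]
      intro hle
      rw [ite_eq_right_iff] at h0
      refine absurd (h0 ?_) one_ne_zero
      intro ν hν
      have h1 := hle ν hν.1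
      rw [← row_update_Vb ω r b z ν hν.2]
      exact h1
    unfold E1
    simp only [hz, sum_const_zero, zero_div, h0, mul_zero, le_refl]
  · have h1 : kif M r A' φ ω = 1 := by
      unfold kif at h0 ⊢
      split_ifs at h0 ⊢ with h
      · rfl
      · exact absurd rfl h0
    rw [h1, mul_one]
    rcases Nat.eq_zero_or_pos κ with hk0 | hk1
    · rw [hk0, pow_zero]
      unfold E1
      rw [div_le_one hcard]
      calc ∑ z ∈ Al j ω, kif M r A φ (Function.update ω j z) ≤ ∑ z ∈ Al j ω, (1:ℝ) :=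
            sum_le_sum fun z _ => kif_le_one _ _ _ _ _
        _ = (Al j ω).card := by simp
    · set S := (Al j ω).filter (fun z => ∀ v ∈ A, row M (Function.update ω j z) r v = φ v)
        with hS
      have h2 : S.card * q ^ κ ≤ q ^ B := by
        refine card_kill_le (A.map (Rb q B b)) S ?_
        intro z hz z' hz' v hv
        rw [Submodule.mem_map] at hv
        obtain ⟨ν, hν, rfl⟩ := hv
        have e1 := (mem_filter.1 hz).2 ν hν
        have e2 := (mem_filter.1 hz').2 ν hν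
        rw [hj, row_update] at e1 e2
        simp only [Rb_apply]
        exact add_right_cancel (e1.trans e2.symm)
      have h3 : ∑ z ∈ Al j ω, kif M r A φ (Function.update ω j z) = S.card := by
        unfold kif
        rw [hS, card_filter]
        push_cast
        rfl
      unfold E1
      rw [h3, div_le_iff₀ hcard]
      have h5 : ((S.card : ℝ)) * (q:ℝ) ^ κ ≤ (q:ℝ) ^ B := by exact_mod_cast h2
      have h6 : (q:ℝ) ^ B ≤ 2 * (Al j ω).card := by exact_mod_cast hB j ω
      have h7 : (2:ℝ) ≤ 2 ^ κ := by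
        calc (2:ℝ) = 2 ^ 1 := by norm_num
          _ ≤ 2 ^ κ := pow_le_pow_right₀ (by norm_num) hk1
      rw [div_pow, div_mul_eq_mul_div, le_div_iff₀ (by positivity)]
      calc (S.card : ℝ) * (q:ℝ) ^ κ ≤ 2 * (Al j ω).card := h5.trans h6
        _ ≤ 2 ^ κ * (Al j ω).card := mul_le_mul_of_nonneg_right h7 hcard.le

/-- Lemma P, affine version. -/
theorem lemPaff (Al : ℕ → Pth q B → Finset (Blk q B)) (hB : ∀ j ω, q ^ B ≤ 2 * (Al j ω).card)
    (h4 : 4 ≤ q) (r : ℕ) (φ : Vec q M B →ₗ[ZMod q] ZMod q) :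
    ∀ k ≤ M, ∀ (ω₀ : Pth q B) (A : Submodule (ZMod q) (Vec q M B)), A ≤ Vb q M B (M - k) →
      EE Al (r * M) k (kif M r A φ) ω₀ ≤ (2 / (q : ℝ)) ^ (Module.finrank (ZMod q) A) := by
  intro k
  induction k with
  | zero =>
    intro _ ω₀ A hA
    rw [Nat.sub_zero, Vb_top_eq_bot, le_bot_iff] at hA
    subst hA
    rw [finrank_bot, pow_zero]
    exact kif_le_one _ _ _ _ _
  | succ k ih =>
    intro hk ω₀ A hA
    have hb : M - (k+1) < M := by omega
    set b : Fin M := ⟨M - (k+1), hb⟩ with hbd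
    have hbv : (b:ℕ) = M - (k+1) := rfl
    have hbk : M - 1 - (b:ℕ) = k := by rw [hbv]; omega
    have hb1 : (b:ℕ) + 1 = M - k := by rw [hbv]; omega
    have hAb : A ≤ Vb q M B b := hA
    have hfr := finrank_map_Rb b A hAb
    have h1 : ∀ ω', Agr (r * M) ω₀ ω' → E1 Al (r * M + k) (kif M r A φ) ω' ≤
        (2 / (q : ℝ)) ^ (Module.finrank (ZMod q) (A.map (Rb q B b))) *
        kif M r (A ⊓ Vb q M B ((b:ℕ)+1)) φ ω' := by
      intro ω' _
      have := E1_kif Al hB h4 r b A φ hAb ω'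
      rw [hbk] at this
      exact this
    have h2 := EE_mono Al (r * M) k h1
    rw [EE_const_mul] at h2
    have h3 := ih (by omega) ω₀ (A ⊓ Vb q M B ((b:ℕ)+1)) (by rw [hb1]; exact inf_le_right)
    calc EE Al (r * M) (k+1) (kif M r A φ) ω₀
        = EE Al (r * M) k (E1 Al (r * M + k) (kif M r A φ)) ω₀ := rfl
      _ ≤ _ := h2
      _ ≤ (2 / (q : ℝ)) ^ (Module.finrank (ZMod q) (A.map (Rb q B b))) *
          (2 / (q : ℝ)) ^ (Module.finrank (ZMod q) (A ⊓ Vb q M B ((b:ℕ)+1) : Submodule _ _)) :=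
          mul_le_mul_of_nonneg_left h3 (by positivity)
      _ = (2 / (q : ℝ)) ^ (Module.finrank (ZMod q) A) := by
          rw [← pow_add, hfr]

/-- a whole row equals `φ` on `A` with probability at most `(2/q)^dim A` -/
theorem EE_row (Al : ℕ → Pth q B → Finset (Blk q B)) (hB : ∀ j ω, q ^ B ≤ 2 * (Al j ω).card)
    (h4 : 4 ≤ q) (r : ℕ) (ω₀ : Pth q B) (A : Submodule (ZMod q) (Vec q M B))
    (φ : Vec q M B →ₗ[ZMod q] ZMod q) :
    EE Al (r * M) M (kif M r A φ) ω₀ ≤ (2 / (q : ℝ)) ^ (Module.finrank (ZMod q) A) :=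
  lemPaff Al hB h4 r φ M le_rfl ω₀ A (by rw [Nat.sub_self, Vb_zero]; exact le_top)

lemma Al_ne (h4 : 4 ≤ q) (Al : ℕ → Pth q B → Finset (Blk q B))
    (hB : ∀ j ω, q ^ B ≤ 2 * (Al j ω).card) : ∀ j ω, (Al j ω).Nonempty := by
  intro j ω
  rw [← Finset.card_pos]
  have h1 := hB j ω
  have h2 : 0 < q ^ B := Nat.pow_pos (by omega)
  omega

end aff

section gen
variable {Z : Type*} [Fintype Z] [DecidableEq Z]

/-- averaging over later times does not matter -/
lemma EE_upto (Al : ℕ → (ℕ → Z) → Finset Z) (hne : ∀ j ω, (Al j ω).Nonempty) {a T : ℕ}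
    (h : a ≤ T) {f : (ℕ → Z) → ℝ} (hf : DepLT a f) (ω₀ : ℕ → Z) :
    EE Al 0 T f ω₀ = EE Al 0 a f ω₀ := by
  obtain ⟨k, rfl⟩ := Nat.exists_eq_add_of_le h
  rw [EE_add, Nat.zero_add]
  have : EE Al a k f = f := by
    funext ω
    exact EE_dep Al hne a k hf ω
  rw [this]

end gen

section cnt
variable {q M B n : ℕ} [Fact q.Prime]

lemma AA_le_Vb' {c : Flg q M B n} (hc : IsFlags c) {K7 r b : ℕ} {ω : Pth q B}
    {l : Fin (n+2) → ℕ} (hl : l ∈ IL M B n K7 r b) : AA c ω l r ≤ Vb q M B b := by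
  unfold IL at hl
  rw [mem_filter] at hl
  exact AA_le_Vb hc ω hl.2.1

/-- the level whose first coordinate is pushed to the end of the block -/
lemma AA_inf_Vb {c : Flg q M B n} (hc : IsFlags c) (ω : Pth q B) (W : Fin (n+2) → ℕ) (r : ℕ)
    (b : Fin M) : AA c ω W r ⊓ Vb q M B ((b:ℕ)+1) ≤
      AA c ω (Function.update W 0 (((b:ℕ)+1) * B)) r := by
  intro v hv
  rw [Submodule.mem_inf, mem_AA] at hv
  rw [mem_AA]
  refine ⟨fun a j hj => ?_, hv.1.2⟩
  by_cases ha : a = 0
  · subst ha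
    rw [Function.update_self] at hj
    have hle : ((b:ℕ)+1) * B ≤ M * B := Nat.mul_le_mul_right _ b.2
    have h1 := hv.2 ⟨j, lt_of_lt_of_le hj hle⟩ hj
    rw [show c 0 j v = v ⟨j, lt_of_lt_of_le hj hle⟩ from hc.zero ⟨j, _⟩ v]
    exact h1
  · rw [Function.update_of_ne ha] at hj
    exact hv.1.1 a j hj

/-- no vector of the level vanishes on the block -/
lemma inf_bot {c : Flg q M B n} (hc : IsFlags c) {ω : Pth q B} {W : Fin (n+2) → ℕ} {r : ℕ}
    (b : Fin M) (hE : Exc c ω r) (h : M * B + W 0 ≤ ∑ a, W a + ((b:ℕ)+1) * B + r) :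
    AA c ω W r ⊓ Vb q M B ((b:ℕ)+1) = ⊥ := by
  rw [eq_bot_iff]
  refine (AA_inf_Vb hc ω W r b).trans (le_of_eq ?_)
  rw [← Submodule.finrank_eq_zero (R := ZMod q), hE]
  unfold dm
  have h1 := Finset.add_sum_erase univ W (mem_univ (0 : Fin (n+2)))
  have h2 : ∑ a, Function.update W 0 (((b:ℕ)+1) * B) a =
      ((b:ℕ)+1) * B + ∑ a ∈ univ.erase 0, W a := by
    rw [sum_update_of_mem (mem_univ _), Finset.sdiff_singleton_eq_erase]
  omega

lemma mem_IL {K7 r β : ℕ} {l : Fin (n+2) → ℕ} : l ∈ IL M B n K7 r β ↔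
    (∀ a, l a < M * B) ∧ β * B ≤ l 0 ∧ l 0 + K7 ≤ (β + 1) * B ∧
    ∑ a, l a + r < M * B ∧ M * B ≤ ∑ a, l a + r + (n + 2) := by
  unfold IL Lbox
  rw [mem_filter, Fintype.mem_piFinset]
  simp only [Finset.mem_range]

lemma IL_inf {c : Flg q M B n} (hc : IsFlags c) {K7 r : ℕ} {b : Fin M} {ω : Pth q B}
    {l : Fin (n+2) → ℕ} (hE : Exc c ω r) (hK : n + 2 ≤ K7) (hl : l ∈ IL M B n K7 r b) :
    AA c ω l r ⊓ Vb q M B ((b:ℕ)+1) = ⊥ := by
  rw [mem_IL] at hl
  exact inf_bot hc b hE (by omega)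

/-- the sum of two interior levels -/
lemma IL_sup_inf {c : Flg q M B n} (hc : IsFlags c) {K7 r : ℕ} {b : Fin M} {ω : Pth q B}
    {l l' : Fin (n+2) → ℕ} (hE : Exc c ω r) (hK : 2 * n + 4 ≤ K7) (hl : l ∈ IL M B n K7 r b)
    (hl' : l' ∈ IL M B n K7 r b) (h1 : 1 ≤ dm M B (mxv l l') r) :
    (AA c ω l r ⊔ AA c ω l' r) ⊓ Vb q M B ((b:ℕ)+1) = ⊥ := by
  rw [mem_IL] at hl hl'
  have hle : AA c ω l r ⊔ AA c ω l' r ≤ AA c ω (fun a => min (l a) (l' a)) r :=
    sup_le (AA_mono c ω (fun a => min_le_left _ _) le_rfl)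
      (AA_mono c ω (fun a => min_le_right _ _) le_rfl)
  rw [eq_bot_iff]
  refine (inf_le_inf_right _ hle).trans (le_of_eq ?_)
  apply inf_bot hc b hE
  have hs : ∑ a, min (l a) (l' a) + ∑ a, mxv l l' a = ∑ a, l a + ∑ a, l' a := by
    rw [← sum_add_distrib, ← sum_add_distrib]
    exact sum_congr rfl fun a _ => by unfold mxv; exact min_add_max _ _
  unfold dm at h1
  have h3 : min (l 0) (l' 0) ≤ l 0 := min_le_left _ _
  omega

open Classical in
/-- exact uniformity of the row on an interior subspace -/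
theorem card_row_eq (ω : Pth q B) (r : ℕ) (b : Fin M) (A : Submodule (ZMod q) (Vec q M B))
    (hA : A ≤ Vb q M B b) (hA' : A ⊓ Vb q M B ((b:ℕ)+1) = ⊥)
    (φ : Vec q M B →ₗ[ZMod q] ZMod q) :
    ((univ : Finset (Blk q B)).filter (fun z => ∀ v ∈ A,
      row M (Function.update ω (r * M + (M - 1 - b)) z) r v = φ v)).card *
      q ^ Module.finrank (ZMod q) A = q ^ B := by
  set j := r * M + (M - 1 - (b:ℕ)) with hj
  have hinj : Function.Injective ((Rb q B b).domRestrict A) := by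
    rw [← LinearMap.ker_eq_bot]
    rw [Submodule.eq_bot_iff]
    intro x hx
    rw [LinearMap.mem_ker, LinearMap.domRestrict_apply] at hx
    have h3 : (x : Vec q M B) ∈ A ⊓ Vb q M B ((b:ℕ)+1) :=
      ⟨x.2, (mem_Vb_succ (hA x.2)).2 hx⟩
    rw [hA', Submodule.mem_bot] at h3
    exact Subtype.ext h3
  have hfr : Module.finrank (ZMod q) (A.map (Rb q B b)) = Module.finrank (ZMod q) A := by
    rw [← LinearMap.range_domRestrict]
    exact LinearMap.finrank_range_of_inj hinj
  set U := A.map (Rb q B b) with hU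
  -- a solution
  obtain ⟨z₀, hz₀⟩ : ∃ z₀ : Blk q B, ∀ v ∈ A, row M (Function.update ω j z₀) r v = φ v := by
    let e := LinearEquiv.ofInjective ((Rb q B b).domRestrict A) hinj
    let ψ : A →ₗ[ZMod q] ZMod q := (φ - row M (Function.update ω j 0) r).domRestrict A
    have hUr : U = LinearMap.range ((Rb q B b).domRestrict A) := by
      rw [hU, LinearMap.range_domRestrict]
    let χ : U →ₗ[ZMod q] ZMod q := (ψ ∘ₗ e.symm.toLinearMap) ∘ₗ (LinearEquiv.ofEq _ _ hUr).toLinearMap
    obtain ⟨z₀, hz₀⟩ := orth_surj U χ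
    refine ⟨z₀, fun v hv => ?_⟩
    rw [hj, row_update, ← hj]
    have hvU : Rb q B b v ∈ U := Submodule.mem_map_of_mem hv
    have h1 := orth_apply U z₀ ⟨Rb q B b v, hvU⟩
    have h2 : χ ⟨Rb q B b v, hvU⟩ = φ v - row M (Function.update ω j 0) r v := by
      show ψ (e.symm ((LinearEquiv.ofEq _ _ hUr) ⟨Rb q B b v, hvU⟩)) = _
      have h3 : (LinearEquiv.ofEq _ _ hUr) ⟨Rb q B b v, hvU⟩ = e ⟨v, hv⟩ := by
        apply Subtype.ext
        rfl
      rw [h3, LinearEquiv.symm_apply_apply]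
      rfl
    rw [hz₀, h2] at h1
    have h4 : ∑ i, z₀ i * v (pos b i) = φ v - row M (Function.update ω j 0) r v := h1.symm
    rw [h4]
    ring
  have hcard : ((univ : Finset (Blk q B)).filter (fun z => ∀ v ∈ A,
      row M (Function.update ω j z) r v = φ v)).card =
      q ^ Module.finrank (ZMod q) (LinearMap.ker (orth U)) := by
    have hK : Nat.card (LinearMap.ker (orth U)) =
        q ^ Module.finrank (ZMod q) (LinearMap.ker (orth U)) := by
      rw [Module.natCard_eq_pow_finrank (K := ZMod q), Nat.card_eq_fintype_card, ZMod.card]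
    rw [← hK, ← Fintype.card_coe, ← Nat.card_eq_fintype_card]
    have hiff : ∀ z : Blk q B, (∀ v ∈ A, row M (Function.update ω j z) r v = φ v) ↔
        z - z₀ ∈ LinearMap.ker (orth U) := by
      intro z
      rw [LinearMap.mem_ker]
      constructor
      · intro h
        ext u
        obtain ⟨u, α, hα, rfl⟩ := u
        rw [orth_apply]
        have e1 := h α hα
        have e2 := hz₀ α hα
        rw [hj, row_update] at e1 e2
        simp only [Pi.sub_apply, sub_mul, Finset.sum_sub_distrib, Rb_apply, LinearMap.zero_apply]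
        linear_combination e1 - e2
      · intro h v hv
        have h1 := LinearMap.congr_fun h ⟨Rb q B b v, Submodule.mem_map_of_mem hv⟩
        rw [orth_apply] at h1
        simp only [Pi.sub_apply, sub_mul, Finset.sum_sub_distrib, Rb_apply,
          LinearMap.zero_apply] at h1
        have e2 := hz₀ v hv
        rw [hj, row_update] at e2 ⊢
        linear_combination e2 + h1
    refine Nat.card_congr
      { toFun := fun z => ⟨z.1 - z₀, (hiff z.1).1 (mem_filter.1 z.2).2⟩
        invFun := fun k => ⟨k.1 + z₀, mem_filter.2 ⟨mem_univ _, (hiff _).2 (by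
          rw [add_sub_cancel_right]; exact k.2)⟩⟩
        left_inv := fun z => by ext1; simp
        right_inv := fun k => by ext1; simp }
  rw [hcard, ← hfr, ← pow_add, finrank_orth]

/-- a relation with nonzero last coefficient is a value of the row -/
lemma Rel_iff (c : Flg q M B n) (ω : Pth q B) (l : Fin (n+2) → ℕ) (r : ℕ)
    (H : Option (Fin (n+2)) → ZMod q) (hH : H none ≠ 0) : Rel c ω l r H ↔
    ∀ v ∈ AA c ω l r, row M ω r v = (-(H none)⁻¹ • ∑ a, H (some a) • c a (l a)) v := by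
  unfold Rel
  refine forall₂_congr fun v _ => ?_
  have e : (-(H none)⁻¹ • ∑ a, H (some a) • c a (l a)) v =
      -((H none)⁻¹ * ∑ a, H (some a) * c a (l a) v) := by
    simp [LinearMap.sum_apply]
  rw [e]
  constructor
  · intro h
    have h1 : ∑ a, H (some a) * c a (l a) v = - (H none * row M ω r v) := by
      linear_combination h
    rw [h1]
    field_simp
  · intro h
    rw [h]
    field_simp
    ring

lemma Rel_update (c : Flg q M B n) (ω : Pth q B) (l : Fin (n+2) → ℕ) (r : ℕ) {j : ℕ}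
    (hj : r * M ≤ j) (z : Blk q B) (H : Option (Fin (n+2)) → ZMod q) (hH : H none ≠ 0) :
    Rel c (Function.update ω j z) l r H ↔ ∀ v ∈ AA c ω l r,
      row M (Function.update ω j z) r v = (-(H none)⁻¹ • ∑ a, H (some a) • c a (l a)) v := by
  rw [Rel_iff c _ l r H hH, AA_update c ω l hj z]

lemma Rel_smul {c : Flg q M B n} {ω : Pth q B} {l : Fin (n+2) → ℕ} {r : ℕ}
    {H : Option (Fin (n+2)) → ZMod q} (h : Rel c ω l r H) (s : ZMod q) :
    Rel c ω l r (fun o => s * H o) := by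
  intro v hv
  have h1 := h v hv
  have e : ∑ a, s * H (some a) * c a (l a) v = s * ∑ a, H (some a) * c a (l a) v := by
    rw [mul_sum]
    exact sum_congr rfl fun a _ => by ring
  rw [e, mul_assoc, ← mul_add, h1, mul_zero]

/-- elimination of the row from two relations -/
lemma Rel2_OR {c : Flg q M B n} {ω : Pth q B} {l l' : Fin (n+2) → ℕ} {r : ℕ}
    {H H' : Option (Fin (n+2)) → ZMod q} (h : Rel c ω l r H) (h' : Rel c ω l' r H') :
    OR c ω (mxv l l') r (OO l l' H H') := by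
  intro v hv
  have hv1 : v ∈ AA c ω l r := AA_mono c ω (fun a => le_max_left _ _) le_rfl hv
  have hv2 : v ∈ AA c ω l' r := AA_mono c ω (fun a => le_max_right _ _) le_rfl hv
  have e1 := h v hv1
  have e2 := h' v hv2
  have e3 : ∀ a, OO l l' H H' a * c a (mxv l l' a) v =
      H' none * (H (some a) * c a (l a) v) - H none * (H' (some a) * c a (l' a) v) := by
    intro a
    unfold OO mxv
    rcases Nat.lt_trichotomy (l a) (l' a) with h1 | h1 | h1
    · rw [if_neg (by omega), if_pos (by omega), max_eq_right h1.le]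
      have h2 : c a (l a) v = 0 := hv2.1 a (l a) h1
      rw [h2]; ring
    · rw [if_pos (by omega), if_pos (by omega), h1, max_self]; ring
    · rw [if_pos (by omega), if_neg (by omega), max_eq_left h1.le]
      have h2 : c a (l' a) v = 0 := hv1.1 a (l' a) h1
      rw [h2]; ring
  rw [sum_congr rfl (fun a _ => e3 a), sum_sub_distrib, ← mul_sum, ← mul_sum]
  linear_combination H' none * e1 - H none * e2

open Classical in
/-- **one relation**: exactly the proportion `q^(-D)` of the blocks -/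
theorem card_Rel {c : Flg q M B n} (hc : IsFlags c) {K7 r : ℕ} {b : Fin M} {ω : Pth q B}
    {l : Fin (n+2) → ℕ} (hE : Exc c ω r) (hK : n + 2 ≤ K7) (hl : l ∈ IL M B n K7 r b)
    (H : Option (Fin (n+2)) → ZMod q) (hH : H none ≠ 0) :
    ((univ : Finset (Blk q B)).filter (fun z =>
      Rel c (Function.update ω (r * M + (M - 1 - b)) z) l r H)).card * q ^ dm M B l r = q ^ B := by
  have h1 := card_row_eq ω r b (AA c ω l r) (AA_le_Vb' hc hl) (IL_inf hc hE hK hl)
    (-(H none)⁻¹ • ∑ a, H (some a) • c a (l a))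
  rw [hE l] at h1
  rw [← h1]
  congr 2
  ext z
  rw [mem_filter, mem_filter, Rel_update c ω l r (by omega) z H hH]

open Classical in
/-- **two relations** -/
theorem card_Rel2 {c : Flg q M B n} (hc : IsFlags c) {K7 r : ℕ} {b : Fin M} {ω : Pth q B}
    {l l' : Fin (n+2) → ℕ} (hl : l ∈ IL M B n K7 r b) (hl' : l' ∈ IL M B n K7 r b)
    (hi : (AA c ω l r ⊔ AA c ω l' r) ⊓ Vb q M B ((b:ℕ)+1) = ⊥)
    (H H' : Option (Fin (n+2)) → ZMod q) (hH : H none ≠ 0) (hH' : H' none ≠ 0) :
    ((univ : Finset (Blk q B)).filter (fun z =>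
      Rel c (Function.update ω (r * M + (M - 1 - b)) z) l r H ∧
      Rel c (Function.update ω (r * M + (M - 1 - b)) z) l' r H')).card *
      q ^ Module.finrank (ZMod q) (AA c ω l r ⊔ AA c ω l' r : Submodule _ _) ≤ q ^ B := by
  set A := AA c ω l r ⊔ AA c ω l' r with hA
  have hAb : A ≤ Vb q M B b := sup_le (AA_le_Vb' hc hl) (AA_le_Vb' hc hl')
  have hfr := finrank_map_Rb b A hAb
  rw [hi, finrank_bot, add_zero] at hfr
  rw [← hfr]
  refine card_kill_le (A.map (Rb q B b)) _ ?_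
  intro z hz z' hz' v hv
  rw [mem_filter, Rel_update c ω l r (by omega) z H hH,
    Rel_update c ω l' r (by omega) z H' hH'] at hz
  rw [mem_filter, Rel_update c ω l r (by omega) z' H hH,
    Rel_update c ω l' r (by omega) z' H' hH'] at hz'
  rw [Submodule.mem_map] at hv
  obtain ⟨ν, hν, rfl⟩ := hv
  obtain ⟨α, hα, α', hα', rfl⟩ := Submodule.mem_sup.1 hν
  have e1 := (hz.2.1 α hα).trans (hz'.2.1 α hα).symm
  have e2 := (hz.2.2 α' hα').trans (hz'.2.2 α' hα').symm
  rw [row_update, row_update ω r b z'] at e1 e2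
  simp only [Rb_apply, Pi.add_apply, mul_add, Finset.sum_add_distrib]
  linear_combination e1 + e2

/-- dimension of the sum of two levels -/
lemma finrank_sup_eq {c : Flg q M B n} {ω : Pth q B} {r : ℕ} (hE : Exc c ω r)
    (l l' : Fin (n+2) → ℕ) :
    Module.finrank (ZMod q) (AA c ω l r ⊔ AA c ω l' r : Submodule _ _) + dm M B (mxv l l') r =
      dm M B l r + dm M B l' r := by
  have h1 := finrank_sup (AA c ω l r) (AA c ω l' r)
  rw [AA_inf, hE l, hE l', hE (fun a => max (l a) (l' a))] at h1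
  exact h1

/-- the relations form a subspace -/
def RelS (c : Flg q M B n) (ω : Pth q B) (l : Fin (n+2) → ℕ) (r : ℕ) :
    Submodule (ZMod q) (Option (Fin (n+2)) → ZMod q) where
  carrier := {H | Rel c ω l r H}
  add_mem' := by
    intro H H' h h' v hv
    have e1 := h v hv
    have e2 := h' v hv
    simp only [Pi.add_apply, add_mul, Finset.sum_add_distrib]
    linear_combination e1 + e2
  zero_mem' := by
    intro v _
    simp
  smul_mem' := by
    intro s H h
    exact Rel_smul h s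

lemma mem_RelS {c : Flg q M B n} {ω : Pth q B} {l : Fin (n+2) → ℕ} {r : ℕ}
    {H : Option (Fin (n+2)) → ZMod q} : H ∈ RelS c ω l r ↔ Rel c ω l r H := Iff.rfl

lemma wm_nonneg {ι : Type} [Fintype ι] (h : ι → ZMod q) : 0 ≤ wm h := by
  unfold wm
  refine prod_nonneg fun a _ => ?_
  have : (0:ℝ) ≤ mx (h a) := le_trans zero_le_one (le_max_left _ _)
  positivity

lemma RR_nonneg (c : Flg q M B n) (ω : Pth q B) (l : Fin (n+2) → ℕ) (r : ℕ) :
    0 ≤ RR c ω l r := by
  unfold RR
  exact sum_nonneg fun H _ => mul_nonneg (by positivity) (wm_nonneg H)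

lemma PP_nonneg (c : Flg q M B n) (K0 : ℕ) (ω : Pth q B) (r : ℕ) (l l' : Fin (n+2) → ℕ) :
    0 ≤ PP c K0 ω r l l' := by
  unfold PP
  refine sum_nonneg fun H _ => sum_nonneg fun H' _ => mul_nonneg (ii_nonneg _) ?_
  have := wm_nonneg H
  positivity

end cnt

end Pool.Agent.Y258
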